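import Pool.Agent.MP_1ba41f_an.S2.OD.Spec

/-! Semiconjugacy of flows and first integrals. -/

open Set Metric Filter Topology

namespace Pool.Agent.MP_1ba41f_an.S2

namespace Sym

variable {E : Type} [NormedAddCommGroup E] [NormedSpace ℂ E] [NormedSpace ℝ E]
  [IsScalarTower ℝ ℂ E] {f : E → E} {U : Set E} {Ω : Set (E × ℂ)} {Φ : E × ℂ → E}

/-- the real curve along a segment of complex time -/
lemma curve (h : IsFlow f U Ω Φ) {x : E} {τ : ℂ} (hx : (x, τ) ∈ Ω) {s : ℝ}
    (hs : s ∈ Icc (0 : ℝ) 1) :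
    HasDerivAt (fun r : ℝ => Φ (x, (r : ℂ) * τ)) (τ • f (Φ (x, (s : ℂ) * τ))) s := by
  have h1 : HasDerivAt (fun r : ℝ => (r : ℂ) * τ) τ s := by
    simpa using (Complex.ofRealCLM.hasDerivAt (x := s)).mul_const τ
  exact HasDerivAt.scomp s (h.der _ (h.star _ hx s hs)) h1

end Sym

theorem symS : SymStmt := by
  intro E E' _ _ _ _ _ _ _ _ f U Ω Φ h
  refine ⟨fun f' U' Ω' Φ' h' L x τ τ' hx hL => ?_, fun J x τ hx hJ => ?_⟩
  · have := h'.max τ' (fun r : ℝ => L (Φ (x, (r : ℂ) * τ))) fun s hs => by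
      obtain ⟨m, L', d, e⟩ := hL s hs
      refine ⟨m, ?_⟩
      rw [← e]
      exact (d.comp_hasDerivAt s (Sym.curve h hx hs)).hasDerivWithinAt
    simpa [(h.zero x (h.mem _ hx).1).2] using this
  · have d : ∀ s ∈ Icc (0 : ℝ) 1, HasDerivAt (fun r : ℝ => J (Φ (x, (r : ℂ) * τ))) 0 s := by
      intro s hs
      obtain ⟨J', d, e⟩ := hJ s hs
      have := (d.restrictScalars ℝ).comp_hasDerivAt s (Sym.curve h hx hs)
      rwa [ContinuousLinearMap.coe_restrictScalars', map_smul, e, smul_zero] at this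
    have := constant_of_has_deriv_right_zero
      (fun s hs => (d s hs).continuousAt.continuousWithinAt)
      (fun s hs => (d s (Ico_subset_Icc_self hs)).hasDerivWithinAt) 1 (by simp)
    simpa [(h.zero x (h.mem _ hx).1).2] using this

end Pool.Agent.MP_1ba41f_an.S2
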