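import Pool.Agent.MP_1ba41f_an.S2.OD.Spec

/-! Continuation of the flow under an a priori bound. -/

noncomputable section
open Set Metric Filter Topology

namespace Pool.Agent.MP_1ba41f_an.S2

namespace ExtA

/-- continuous induction on an interval -/
theorem ind {P : ℝ → Prop} {S : ℝ}
    (h1 : ∀ s ∈ Icc 0 S, (∀ t ∈ Ico 0 s, P t) → P s) (h2 : ∀ s, P s → ∀ᶠ t in 𝓝 s, P t) :
    ∀ s ∈ Icc 0 S, P s := by
  have cl : IsClosed {s : ℝ | ∀ t, 0 ≤ t → ¬P t → s ≤ t} := by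
    simp only [ofPred_forall]
    exact isClosed_iInter fun t => isClosed_iInter fun _ => isClosed_iInter fun _ => isClosed_Iic
  have k : ∀ s ∈ Icc 0 S, s ∈ {s : ℝ | ∀ t, 0 ≤ t → ¬P t → s ≤ t} → P s := fun s hs h =>
    h1 s hs fun t ht => by_contra fun n => (h t ht.1 n).not_gt ht.2
  have := (cl.inter isClosed_Icc).Icc_subset_of_forall_mem_nhdsWithin (a := 0) (b := S)
    (fun t t0 _ => t0) fun s hs => by
      obtain ⟨d, d0, hd⟩ := Metric.eventually_nhds_iff.1 (h2 s (k s (Ico_subset_Icc_self hs.2) hs.1))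
      filter_upwards [Ioo_mem_nhdsGT (lt_add_of_pos_right s d0)] with u hu t t0 n
      by_contra c
      have := hs.1 t t0 n
      exact n (hd (by rw [Real.dist_eq, abs_lt]; constructor <;> linarith [hu.2, not_le.1 c]))
  exact fun s hs => k s hs (this hs)

end ExtA

theorem extS (hG : GrpStmt) : ExtStmt := by
  intro E _ _ _ _ f U Ω Φ F K cK KU x hx S S0
  obtain ⟨u, v, -, ov, Ku, hv, huv⟩ := generalized_tube_lemma cK
    (isCompact_singleton (x := (0 : ℂ))) F.op fun p hp => by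
      obtain ⟨y, t⟩ := p
      obtain rfl : t = 0 := hp.2
      exact (F.zero y (KU hp.1)).1
  obtain ⟨d, d0, hd⟩ := Metric.isOpen_iff.1 ov 0 (hv rfl)
  have cj : Continuous fun t : ℝ => (x, (t : ℂ)) := by fun_prop
  have step : ∀ s : ℝ, 0 ≤ s → (∀ t : ℝ, t ∈ Ico 0 s → (x, (t : ℂ)) ∈ Ω ∧ Φ (x, (t : ℂ)) ∈ K) →
      (x, (s : ℂ)) ∈ Ω := by
    intro s s0 h
    rcases s0.eq_or_lt with rfl | s0
    · exact (F.zero x hx).1
    have m : max 0 (s - d / 2) < s := max_lt s0 (by linarith)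
    obtain ⟨a, b⟩ := h _ ⟨le_max_left _ _, m⟩
    have := (hG E f U Ω Φ F).2.2.1 x _ (s - max 0 (s - d / 2)) (le_max_left _ _)
      (sub_nonneg.2 m.le) a (huv ⟨Ku b, hd (by
        rw [mem_ball_zero_iff, Complex.norm_real, Real.norm_eq_abs, abs_of_nonneg (sub_nonneg.2 m.le)]
        linarith [le_max_right 0 (s - d / 2)])⟩)
    rwa [add_sub_cancel] at this
  have ev : ∀ s : ℝ, (x, (s : ℂ)) ∈ Ω → ∀ᶠ t : ℝ in 𝓝 s, (x, (t : ℂ)) ∈ Ω := fun s h =>
    cj.continuousAt.preimage_mem_nhds (F.op.mem_nhds h)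
  refine ⟨fun h => ExtA.ind (P := fun t => (x, (t : ℂ)) ∈ Ω) (fun s hs k => step s hs.1
    fun t ht => ⟨k t ht, h t ⟨ht.1, ht.2.le.trans hs.2⟩ (k t ht)⟩) ev S ⟨S0, le_rfl⟩,
    fun g cg gK g0 h => ?_⟩
  have cont : ∀ s : ℝ, (x, (s : ℂ)) ∈ Ω → ContinuousAt (fun t : ℝ => g (t, Φ (x, (t : ℂ)))) s :=
    fun s h => cg.continuousAt.comp (continuousAt_id.prodMk
      (ContinuousAt.comp (f := fun t : ℝ => (x, (t : ℂ)))
        (F.hol.continuousOn.continuousAt (F.op.mem_nhds h)) cj.continuousAt))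
  refine ExtA.ind (fun s hs k => ?_) fun s k =>
    (ev s k.1).and ((cont s k.1).eventually_lt continuousAt_const k.2)
  have m := step s hs.1 fun t ht =>
    ⟨(k t ht).1, gK t ⟨ht.1, ht.2.le.trans hs.2⟩ _ (k t ht).2.le⟩
  refine ⟨m, h s hs m fun t ht => ?_⟩
  rcases ht.2.eq_or_lt with rfl | l
  · rcases ht.1.eq_or_lt with rfl | t0
    · rw [Complex.ofReal_zero, (F.zero x hx).2]; exact g0.le
    · refine le_of_tendsto ((cont t m).tendsto.mono_left (nhdsWithin_le_nhds (s := Iio t))) ?_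
      filter_upwards [Ico_mem_nhdsLT t0] with r hr using (k r hr).2.le
  · exact (k t ⟨ht.1, l⟩).2.le

end Pool.Agent.MP_1ba41f_an.S2
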