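import Pool.Agent.MP_1ba41f_an.S2.OD.Spec

/-! Cauchy estimates on a ball of a normed space. -/

open Set Metric Filter Topology

namespace Pool.Agent.MP_1ba41f_an.S2

namespace Cau

variable {E F : Type} [NormedAddCommGroup E] [NormedSpace ℂ E] [NormedAddCommGroup F]
  [NormedSpace ℂ F] {f : E → F} {c : E} {R M : ℝ}

omit [NormedSpace ℂ E] [NormedSpace ℂ F] in
lemma maps (hR : 0 < R) (hM : ∀ z ∈ ball c R, ‖f z‖ ≤ M) :
    MapsTo f (ball c R) (closedBall (f c) (2 * M)) := fun z hz => by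
  rw [mem_closedBall, dist_eq_norm]
  linarith [norm_sub_le (f z) (f c), hM z hz, hM c (mem_ball_self hR)]

lemma one (hR : 0 < R) (hd : DifferentiableOn ℂ f (ball c R)) (hM : ∀ z ∈ ball c R, ‖f z‖ ≤ M) :
    ‖fderiv ℂ f c‖ ≤ 2 * M / R :=
  Complex.norm_fderiv_le_div_of_mapsTo_ball hd (maps hR hM) hR

lemma three (hR : 0 < R) (hd : DifferentiableOn ℂ f (ball c R))
    (hM : ∀ z ∈ ball c R, ‖f z‖ ≤ M) {z : E} (hz : z ∈ ball c R) :
    ‖f z - f c - fderiv ℂ f c (z - c)‖ ≤ 4 * M / R ^ 2 * ‖z - c‖ ^ 2 := by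
  have h1 := one hR hd hM
  have M0 : 0 ≤ M := (norm_nonneg _).trans (hM c (mem_ball_self hR))
  have h := Complex.dist_le_mul_div_pow_of_mapsTo_ball_of_isLittleO (n := 1) (R₂ := 4 * M)
    (f := fun w => f w - f c - fderiv ℂ f c (w - c)) (c := c) (by fun_prop) (fun w hw => ?_) ?_ hz
  · simp only [sub_self, map_zero, dist_eq_norm, sub_zero] at h
    refine h.trans (le_of_eq ?_)
    ring
  · simp only [sub_self, map_zero, mem_closedBall, dist_zero_right]
    have h2 := maps hR hM hw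
    rw [mem_closedBall, dist_eq_norm] at h2
    rw [mem_ball, dist_eq_norm] at hw
    have h3 : ‖fderiv ℂ f c (w - c)‖ ≤ 2 * M / R * R :=
      ((fderiv ℂ f c).le_opNorm _).trans (mul_le_mul h1 hw.le (norm_nonneg _) (by positivity))
    rw [div_mul_cancel₀ _ hR.ne'] at h3
    linarith [norm_sub_le (f w - f c) (fderiv ℂ f c (w - c))]
  · simpa using (hd.differentiableAt (ball_mem_nhds c hR)).hasFDerivAt.isLittleO

lemma four (hR : 0 < R) (hd : DifferentiableOn ℂ f (ball c R)) (hM : ∀ z ∈ ball c R, ‖f z‖ ≤ M)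
    {x y : E} (hx : x ∈ ball c (R / 2)) (hy : y ∈ ball c (R / 2)) :
    ‖f x - f y‖ ≤ 4 * M / R * ‖x - y‖ := by
  have sub : ∀ z ∈ ball c (R / 2), ball z (R / 2) ⊆ ball c R := fun z hz =>
    ball_subset_ball' (by linarith [mem_ball.1 hz])
  refine (convex_ball c (R / 2)).norm_image_sub_le_of_norm_fderiv_le (𝕜 := ℂ)
    (fun z hz => hd.differentiableAt (isOpen_ball.mem_nhds (ball_subset_ball (by linarith) hz)))
    (fun z hz => ?_) hy hx
  refine (one (half_pos hR) (hd.mono (sub z hz)) fun w hw => hM w (sub z hz hw)).trans (le_of_eq ?_)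
  field_simp
  ring

lemma five (hR : 0 < R) (hd : DifferentiableOn ℂ f (ball c R)) (hM : ∀ z ∈ ball c R, ‖f z‖ ≤ M)
    {x y : E} (hx : x ∈ ball c (R / 4)) (hy : y ∈ ball c (R / 4)) :
    ‖fderiv ℂ f x - fderiv ℂ f y‖ ≤ 32 * M / R ^ 2 * ‖x - y‖ := by
  have mem : ∀ z ∈ ball c (R / 4), ∀ v ∈ ball (0 : E) (R / 4), z + v ∈ ball c (R / 2) :=
    fun z hz v hv => by
      rw [mem_ball, dist_eq_norm] at *
      rw [sub_zero] at hv
      have := norm_add_le (z - c) v
      rw [sub_add_eq_add_sub] at this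
      linarith
  have dif : ∀ z ∈ ball c (R / 4), DifferentiableOn ℂ (fun v => f (z + v)) (ball 0 (R / 4)) :=
    fun z hz => hd.comp (by fun_prop) fun v hv => ball_subset_ball (by linarith) (mem z hz v hv)
  have R4 : 0 < R / 4 := by linarith
  have h := one (M := 4 * M / R * ‖x - y‖) R4 ((dif x hx).fun_sub (dif y hy)) fun v hv => by
    simpa using four hR hd hM (mem x hx v hv) (mem y hy v hv)
  rw [fderiv_fun_sub ((dif x hx).differentiableAt (ball_mem_nhds _ R4))
    ((dif y hy).differentiableAt (ball_mem_nhds _ R4)), fderiv_comp_add_left, fderiv_comp_add_left,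
    add_zero, add_zero] at h
  refine h.trans (le_of_eq ?_)
  field_simp
  ring

end Cau

theorem cauS : CauStmt := fun _ _ _ _ _ _ _ _ _ _ hR hd hM =>
  ⟨Cau.one hR hd hM, fun z hz => by
    simpa [dist_eq_norm] using
      Complex.dist_le_div_mul_dist_of_mapsTo_ball hd (Cau.maps hR hM) hz,
    fun _ hz => Cau.three hR hd hM hz, fun _ hx _ hy => Cau.four hR hd hM hx hy,
    fun _ hx _ hy => Cau.five hR hd hM hx hy⟩

end Pool.Agent.MP_1ba41f_an.S2
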