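import Pool.Agent.MP_1ba41f_an.S2.OD.Spec

/-! Fixed points that depend holomorphically on a parameter. -/

noncomputable section
open Set Metric Filter Topology Asymptotics

namespace Pool.Agent.MP_1ba41f_an.S2

namespace Fix

variable {P X : Type} [NormedAddCommGroup P] [NormedSpace ℂ P] [NormedAddCommGroup X]
  [NormedSpace ℂ X]

/-- derivative of a fixed point -/
theorem diff [CompleteSpace X] {V : Set P} {T : P × X → X} {ξ : P → X} {p : P} (hV : V ∈ 𝓝 p)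
    (hp : p ∈ V) (hT : DifferentiableAt ℂ T (p, ξ p)) (hfix : ∀ q ∈ V, T (q, ξ q) = ξ q)
    (hA : ‖fderiv ℂ (fun x => T (p, x)) (ξ p)‖ ≤ 1 / 4)
    (hL : ∀ q ∈ V, ‖T (q, ξ q) - T (q, ξ p)‖ ≤ 1 / 4 * ‖ξ q - ξ p‖) : DifferentiableAt ℂ ξ p := by
  have hD := hT.hasFDerivAt
  set D := fderiv ℂ T (p, ξ p)
  have h1 : HasFDerivAt (fun x => T (p, x)) (D.comp (ContinuousLinearMap.inr ℂ P X)) (ξ p) :=
    hD.comp (ξ p) (hasFDerivAt_prodMk_right p (ξ p))
  have h2 : HasFDerivAt (fun q => T (q, ξ p)) (D.comp (ContinuousLinearMap.inl ℂ P X)) p :=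
    hD.comp p (hasFDerivAt_prodMk_left p (ξ p))
  rw [h1.fderiv] at hA
  set A := D.comp (ContinuousLinearMap.inr ℂ P X) with eA
  set B := D.comp (ContinuousLinearMap.inl ℂ P X) with eB
  have o1 : (fun q => ξ q - ξ p) =O[𝓝 p] fun q => T (q, ξ p) - T (p, ξ p) := by
    refine IsBigO.of_bound (4 / 3) (mem_of_superset hV fun q hq => ?_)
    have k := hL q hq
    have k2 := norm_sub_le_norm_sub_add_norm_sub (T (q, ξ q)) (T (q, ξ p)) (T (p, ξ p))
    rw [hfix q hq] at k k2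
    nth_rewrite 1 [hfix p hp] at k2
    show ‖ξ q - ξ p‖ ≤ 4 / 3 * ‖T (q, ξ p) - T (p, ξ p)‖
    linarith
  have o2 : (fun q => ξ q - ξ p) =O[𝓝 p] fun q => q - p := o1.trans h2.isBigO_sub
  have o3 : (fun q => (q, ξ q) - (p, ξ p)) =O[𝓝 p] fun q => q - p :=
    (isBigO_refl (fun q => q - p) (𝓝 p)).prod_left o2
  have t0 : Tendsto (fun q => q - p) (𝓝 p) (𝓝 0) := tendsto_sub_nhds_zero_iff.2 tendsto_id
  have t1 : Tendsto (fun q => (q, ξ q)) (𝓝 p) (𝓝 (p, ξ p)) :=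
    tendsto_sub_nhds_zero_iff.1 (o3.trans_tendsto t0)
  have o4 := (hD.isLittleO.comp_tendsto t1).trans_isBigO o3
  let u : (X →L[ℂ] X)ˣ := Units.oneSub A (hA.trans_lt (by norm_num))
  have o5 := ((↑u⁻¹ : X →L[ℂ] X).isBigO_comp _ (𝓝 p)).trans_isLittleO o4
  refine (HasFDerivAt.of_isLittleO (f' := (↑u⁻¹ : X →L[ℂ] X).comp B)
    (o5.congr' (mem_of_superset hV fun q hq => ?_) EventuallyEq.rfl)).differentiableAt
  have e1 : D ((q, ξ q) - (p, ξ p)) = B (q - p) + A (ξ q - ξ p) := by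
    rw [eA, eB, ContinuousLinearMap.comp_apply, ContinuousLinearMap.comp_apply, ← map_add]
    simp
  have e2 : (↑u⁻¹ : X →L[ℂ] X) (ξ q - ξ p - A (ξ q - ξ p)) = ξ q - ξ p :=
    congrArg (fun L : X →L[ℂ] X => L (ξ q - ξ p)) u.inv_mul
  show (↑u⁻¹ : X →L[ℂ] X) (T (q, ξ q) - T (p, ξ p) - D ((q, ξ q) - (p, ξ p))) =
    ξ q - ξ p - (↑u⁻¹ : X →L[ℂ] X) (B (q - p))
  rw [hfix q hq, hfix p hp, e1, add_comm, ← sub_sub, map_sub, e2]

end Fix

theorem fixS (hC : CauStmt) : FixStmt := by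
  intro P X _ _ _ _ _ V T c R hR hV hT hc hb
  have hd : ∀ p ∈ V, ∀ x ∈ ball (0 : X) (3 * R), DifferentiableAt ℂ T (p, x) := fun p hp x hx =>
    hT.differentiableAt ((hV.prod isOpen_ball).mem_nhds ⟨hp, hx⟩)
  have hd2 : ∀ p ∈ V, ∀ x ∈ ball (0 : X) (3 * R), DifferentiableAt ℂ (fun y => T (p, y)) x :=
    fun p hp x hx => (hd p hp x hx).comp x (hasFDerivAt_prodMk_right p x).differentiableAt
  have s1 : ball (0 : X) (2 * R) ⊆ ball 0 (3 * R) := ball_subset_ball (by linarith)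
  have hA : ∀ p ∈ V, ∀ x ∈ ball (0 : X) (2 * R), ‖fderiv ℂ (fun y => T (p, y)) x‖ ≤ 1 / 4 := by
    intro p hp x hx
    have s2 : ball x R ⊆ ball 0 (3 * R) := ball_subset_ball' (by linarith [mem_ball.1 hx])
    have k := (hC X X (fun y => T (p, y) - c p) x R (R / 8) hR
      (fun y hy => ((hd2 p hp y (s2 hy)).sub_const _).differentiableWithinAt)
      fun y hy => hb p hp y (s2 hy)).1
    rw [fderiv_sub_const] at k
    refine k.trans (le_of_eq ?_)
    field_simp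
    norm_num
  have hL : ∀ p ∈ V, ∀ x ∈ ball (0 : X) (2 * R), ∀ y ∈ ball (0 : X) (2 * R),
      ‖T (p, y) - T (p, x)‖ ≤ 1 / 4 * ‖y - x‖ := fun p hp x hx y hy =>
    (convex_ball 0 (2 * R)).norm_image_sub_le_of_norm_fderiv_le (𝕜 := ℂ)
      (f := fun y => T (p, y)) (fun z hz => hd2 p hp z (s1 hz)) (hA p hp) hx hy
  have s3 : ∀ p ∈ V, closedBall (c p) (R / 8) ⊆ ball 0 (2 * R) := fun p hp =>
    closedBall_subset_ball' (by rw [dist_zero_right]; linarith [hc p hp])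
  have ex : ∀ p, ∃ y, p ∈ V → y ∈ closedBall (c p) (R / 8) ∧ T (p, y) = y := by
    intro p
    by_cases hp : p ∈ V
    · have m : MapsTo (fun y => T (p, y)) (closedBall (c p) (R / 8)) (closedBall (c p) (R / 8)) :=
        fun y hy => mem_closedBall_iff_norm.2 (hb p hp y (s1 (s3 p hp hy)))
      have ct : ContractingWith (1 / 4) (m.restrict _ _ _) := by
        refine ⟨by norm_num, LipschitzWith.of_dist_le_mul fun x y => ?_⟩
        rw [Subtype.dist_eq, Subtype.dist_eq, dist_eq_norm, dist_eq_norm]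
        simpa using hL p hp y (s3 p hp y.2) x (s3 p hp x.2)
      obtain ⟨y, y1, y2, -⟩ := ct.exists_fixedPoint' isClosed_closedBall.isComplete m
        (mem_closedBall_self (by positivity)) (edist_ne_top _ _)
      exact ⟨y, fun _ => ⟨y1, y2⟩⟩
    · exact ⟨0, fun h => (hp h).elim⟩
  choose ξ hξ using ex
  refine ⟨ξ, fun p hp => ?_, fun p hp => ⟨(hξ p hp).2, mem_closedBall_iff_norm.1 (hξ p hp).1,
    fun x hx e => ?_⟩⟩
  · have m := s3 p hp (hξ p hp).1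
    exact (Fix.diff (hV.mem_nhds hp) hp (hd p hp _ (s1 m)) (fun q hq => (hξ q hq).2) (hA p hp _ m)
      fun q hq => hL q hq _ m _ (s3 q hq (hξ q hq).1)).differentiableWithinAt
  · have k := hL p hp _ (s3 p hp (hξ p hp).1) x hx
    rw [e, (hξ p hp).2] at k
    exact sub_eq_zero.1 (norm_le_zero_iff.1 (by linarith))

end Pool.Agent.MP_1ba41f_an.S2
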