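import Pool.Agent.MP_1ba41f_an.S2.OD.Spec

/-! Existence of the holomorphic flow. -/

noncomputable section
open Set Metric Filter Topology

namespace Pool.Agent.MP_1ba41f_an.S2

namespace FlowA

variable {E : Type} [NormedAddCommGroup E] [NormedSpace ℂ E] [NormedSpace ℝ E]

/-- solution of `γ' = τ f(γ)` on `[0,1]` inside `U` -/
def Sol (f : E → E) (U : Set E) (τ : ℂ) (γ : ℝ → E) : Prop :=
  ∀ s ∈ Icc (0 : ℝ) 1, γ s ∈ U ∧ HasDerivWithinAt γ (τ • f (γ s)) (Icc 0 1) s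

omit [NormedSpace ℝ E] in
theorem locLip (hC : CauStmt) {f : E → E} {U : Set E} (hU : IsOpen U)
    (hf : DifferentiableOn ℂ f U) : LocallyLipschitzOn U f := by
  intro x hx
  have c : ContinuousAt f x := hf.continuousOn.continuousAt (hU.mem_nhds hx)
  obtain ⟨R, R0, hR⟩ := Metric.mem_nhds_iff.1
    (inter_mem (hU.mem_nhds hx) (c.preimage_mem_nhds (ball_mem_nhds (f x) one_pos)))
  have h := (hC E E f x R (‖f x‖ + 1) R0 (hf.mono fun z hz => (hR hz).1) fun z hz => by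
    have := (hR hz).2
    rw [mem_preimage, mem_ball, dist_eq_norm] at this
    linarith [norm_le_norm_add_norm_sub' (f z) (f x)]).2.2.2.1
  refine ⟨⟨4 * (‖f x‖ + 1) / R, by positivity⟩, ball x (R / 2),
    mem_nhdsWithin_of_mem_nhds (ball_mem_nhds _ (half_pos R0)),
    LipschitzOnWith.of_dist_le_mul fun a ha b hb => ?_⟩
  rw [dist_eq_norm, dist_eq_norm]
  exact h a ha b hb

theorem uniq {f : E → E} {U : Set E} (hl : LocallyLipschitzOn U f) {τ : ℂ} {γ η : ℝ → E}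
    (h : Sol f U τ γ) (k : Sol f U τ η) (e : γ 0 = η 0) : EqOn γ η (Icc 0 1) := by
  have cγ : ContinuousOn γ (Icc 0 1) := fun s hs => (h s hs).2.continuousWithinAt
  have cη : ContinuousOn η (Icc 0 1) := fun s hs => (k s hs).2.continuousWithinAt
  have cS : IsCompact (γ '' Icc 0 1 ∪ η '' Icc 0 1) :=
    (isCompact_Icc.image_of_continuousOn cγ).union (isCompact_Icc.image_of_continuousOn cη)
  have sU : γ '' Icc 0 1 ∪ η '' Icc 0 1 ⊆ U := by
    rintro _ (⟨s, hs, rfl⟩ | ⟨s, hs, rfl⟩)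
    exacts [(h s hs).1, (k s hs).1]
  obtain ⟨K, hK⟩ := (hl.mono sU).exists_lipschitzOnWith_of_compact cS
  have hK' : LipschitzOnWith (‖τ‖₊ * K) (fun x => τ • f x) (γ '' Icc 0 1 ∪ η '' Icc 0 1) :=
    (lipschitzWith_smul τ).comp_lipschitzOnWith hK
  exact ODE_solution_unique_of_mem_Icc_right (v := fun _ x => τ • f x)
    (s := fun _ => γ '' Icc 0 1 ∪ η '' Icc 0 1) (fun _ _ => hK') cγ
    (fun t ht => (h t (Ico_subset_Icc_self ht)).2.mono_of_mem_nhdsWithin
      (Icc_mem_nhdsGE_of_mem ht))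
    (fun t ht => Or.inl ⟨t, Ico_subset_Icc_self ht, rfl⟩) cη
    (fun t ht => (k t (Ico_subset_Icc_self ht)).2.mono_of_mem_nhdsWithin
      (Icc_mem_nhdsGE_of_mem ht))
    (fun t ht => Or.inr ⟨t, Ico_subset_Icc_self ht, rfl⟩) e

/-- domain of the flow -/
def dom (f : E → E) (U : Set E) : Set (E × ℂ) := {p | ∃ γ, γ 0 = p.1 ∧ Sol f U p.2 γ}

open Classical in
/-- the flow -/
def fl (f : E → E) (U : Set E) (p : E × ℂ) : E := if h : p ∈ dom f U then h.choose 1 else 0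

theorem key {f : E → E} {U : Set E} (hl : LocallyLipschitzOn U f) {τ : ℂ} {γ : ℝ → E}
    (h : Sol f U τ γ) : (γ 0, τ) ∈ dom f U ∧ fl f U (γ 0, τ) = γ 1 := by
  have m : (γ 0, τ) ∈ dom f U := ⟨γ, rfl, h⟩
  refine ⟨m, ?_⟩
  rw [fl, dif_pos m]
  exact uniq hl m.choose_spec.2 h m.choose_spec.1 (right_mem_Icc.2 zero_le_one)

variable [IsScalarTower ℝ ℂ E]

theorem scale {f : E → E} {U : Set E} {τ : ℂ} {γ : ℝ → E} (h : Sol f U τ γ) {r : ℝ}
    (hr : r ∈ Icc (0 : ℝ) 1) : Sol f U ((r : ℂ) * τ) fun s => γ (r * s) := by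
  have m : MapsTo (fun s : ℝ => r * s) (Icc 0 1) (Icc 0 1) := fun s hs =>
    ⟨mul_nonneg hr.1 hs.1, mul_le_one₀ hr.2 hs.1 hs.2⟩
  intro s hs
  refine ⟨(h _ (m hs)).1, ?_⟩
  have := (h _ (m hs)).2.scomp s ((hasDerivAt_id s).const_mul r).hasDerivWithinAt m
  rw [mul_one, ← smul_assoc, Complex.real_smul] at this
  exact this

theorem loc [CompleteSpace E] (hL : LocStmt) {f : E → E} {U : Set E} (hU : IsOpen U)
    (hf : DifferentiableOn ℂ f U) (hl : LocallyLipschitzOn U f) {p : E × ℂ} (hp : p ∈ dom f U) :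
    ∃ r > 0, ball p r ⊆ dom f U ∧ DifferentiableOn ℂ (fl f U) (ball p r) := by
  obtain ⟨γ, e, h⟩ := hp
  obtain ⟨r, r0, Γ, d, hΓ⟩ := hL (E × ℂ) (fun q => (q.2 • f q.1, 0)) (U ×ˢ univ)
    (hU.prod isOpen_univ) ((differentiableOn_snd.smul
      (hf.comp differentiableOn_fst fun q hq => hq.1)).prodMk (differentiableOn_const _))
    (fun s => (γ s, p.2)) fun s hs =>
      ⟨⟨(h s hs).1, mem_univ _⟩, (h s hs).2.prodMk (hasDerivWithinAt_const _ _ _)⟩
  simp only [e, Prod.mk.eta] at d hΓ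
  have k : ∀ q ∈ ball p r, q ∈ dom f U ∧ fl f U q = (Γ q 1).1 := by
    intro q hq
    obtain ⟨z, hq⟩ := hΓ q hq
    have d2 : ∀ s ∈ Icc (0 : ℝ) 1, HasDerivWithinAt (fun s => (Γ q s).2) 0 (Icc 0 1) s :=
      fun s hs => (ContinuousLinearMap.snd ℝ E ℂ).hasFDerivAt.comp_hasDerivWithinAt s (hq s hs).2
    have c := constant_of_has_deriv_right_zero (fun s hs => (d2 s hs).continuousWithinAt)
      fun t ht => (d2 t (Ico_subset_Icc_self ht)).mono_of_mem_nhdsWithin (Icc_mem_nhdsGE_of_mem ht)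
    have S : Sol f U q.2 fun s => (Γ q s).1 := fun s hs => ⟨(hq s hs).1.1, by
      have := (ContinuousLinearMap.fst ℝ E ℂ).hasFDerivAt.comp_hasDerivWithinAt s (hq s hs).2
      rw [show q.2 = (Γ q s).2 by rw [c s hs, z]]
      exact this⟩
    have := key hl S
    simpa only [z, Prod.mk.eta] using this
  exact ⟨r, r0, fun q hq => (k q hq).1, d.fst.congr fun q hq => (k q hq).2⟩

end FlowA

open FlowA in
theorem flowS (hC : CauStmt) (_hH : HolStmt) (hL : LocStmt) : FlowStmt := by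
  intro E _ _ _ _ _ f U hU hf
  have hl := locLip hC hU hf
  have op : IsOpen (dom f U) := Metric.isOpen_iff.2 fun p hp =>
    let ⟨r, r0, h, _⟩ := loc hL hU hf hl hp; ⟨r, r0, h⟩
  have hol : DifferentiableOn ℂ (fl f U) (dom f U) := fun p hp =>
    let ⟨_, r0, _, h⟩ := loc hL hU hf hl hp
    (h.differentiableAt (ball_mem_nhds p r0)).differentiableWithinAt
  have mem : ∀ p ∈ dom f U, p.1 ∈ U ∧ fl f U p ∈ U := by
    rintro ⟨x, τ⟩ ⟨γ, rfl, h⟩
    exact ⟨(h 0 (left_mem_Icc.2 zero_le_one)).1,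
      (key hl h).2 ▸ (h 1 (right_mem_Icc.2 zero_le_one)).1⟩
  refine ⟨dom f U, fl f U, hU, hf, op, hol, mem, ?_, fun x hx => ?_, ?_, fun τ γ h => key hl h⟩
  · rintro ⟨x, τ⟩ ⟨γ, rfl, h⟩ s hs
    simpa only [mul_zero] using (key hl (scale h hs)).1
  · exact key hl (τ := 0) (γ := fun _ => x) fun s _ =>
      ⟨hx, by rw [zero_smul]; exact hasDerivWithinAt_const _ _ _⟩
  rintro ⟨x, τ⟩ hp
  have cj : Continuous fun t : ℂ => (x, t) := by fun_prop
  have oW : IsOpen {t : ℂ | (x, t) ∈ dom f U} := op.preimage cj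
  have dg : DifferentiableOn ℂ (fun t : ℂ => fl f U (x, t)) {t : ℂ | (x, t) ∈ dom f U} :=
    hol.comp (by fun_prop) fun t ht => ht
  have ne : ∀ t : ℂ, (x, t) ∈ dom f U → t ≠ 0 →
      deriv (fun t : ℂ => fl f U (x, t)) t = f (fl f U (x, t)) := by
    intro t ht t0
    have d := (dg.differentiableAt (oW.mem_nhds ht)).hasDerivAt
    obtain ⟨γ, rfl, h⟩ := ht
    have o := right_mem_Icc.2 (zero_le_one' ℝ)
    have d1 : HasDerivAt (fun s : ℝ => (s : ℂ) * t) t 1 := by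
      simpa using (Complex.ofRealCLM.hasDerivAt (x := 1)).mul_const t
    have d2 := (HasDerivAt.scomp_of_eq (1 : ℝ) d d1 (by simp)).hasDerivWithinAt (s := Icc 0 1)
    have e : ∀ s ∈ Icc (0 : ℝ) 1, γ s = fl f U (γ 0, (s : ℂ) * t) := fun s hs => by
      simpa only [mul_zero, mul_one] using (key hl (scale h hs)).2.symm
    have := (uniqueDiffOn_Icc zero_lt_one 1 o).eq_deriv _ (d2.congr e (e 1 o)) (h 1 o).2
    rw [(key hl h).2]
    exact smul_right_injective E t0 this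
  have d := (dg.differentiableAt (oW.mem_nhds hp)).hasDerivAt
  by_cases t0 : τ = 0
  · subst t0
    have c1 : ContinuousAt (deriv fun t : ℂ => fl f U (x, t)) 0 :=
      (dg.deriv oW).continuousOn.continuousAt (oW.mem_nhds hp)
    have c2 : ContinuousAt (fun t : ℂ => f (fl f U (x, t))) 0 :=
      ContinuousAt.comp (f := fun t : ℂ => fl f U (x, t))
        (hf.continuousOn.continuousAt (hU.mem_nhds (mem _ hp).2)) d.continuousAt
    have := tendsto_nhds_unique_of_eventuallyEq (l := 𝓝[≠] (0 : ℂ))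
      (c1.tendsto.mono_left nhdsWithin_le_nhds) (c2.tendsto.mono_left nhdsWithin_le_nhds) (by
        filter_upwards [self_mem_nhdsWithin, mem_nhdsWithin_of_mem_nhds (oW.mem_nhds hp)]
          with t t0 ht using ne t ht t0)
    exact this ▸ d
  · exact ne τ hp t0 ▸ d

end Pool.Agent.MP_1ba41f_an.S2
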