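import Mathlib

/-! Holomorphic flows: definitions and statements. -/

noncomputable section
open Set Metric Filter Topology

namespace Pool.Agent.MP_1ba41f_an.S2

/-- `Φ` is the flow in complex time (along segments) of the field `f` on `U`, with domain `Ω`. -/
structure IsFlow {E : Type} [NormedAddCommGroup E] [NormedSpace ℂ E] [NormedSpace ℝ E]
    (f : E → E) (U : Set E) (Ω : Set (E × ℂ)) (Φ : E × ℂ → E) : Prop where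
  opU : IsOpen U
  holf : DifferentiableOn ℂ f U
  op : IsOpen Ω
  hol : DifferentiableOn ℂ Φ Ω
  mem : ∀ p ∈ Ω, p.1 ∈ U ∧ Φ p ∈ U
  star : ∀ p ∈ Ω, ∀ s ∈ Icc (0 : ℝ) 1, (p.1, (s : ℂ) * p.2) ∈ Ω
  zero : ∀ x ∈ U, (x, (0 : ℂ)) ∈ Ω ∧ Φ (x, 0) = x
  der : ∀ p ∈ Ω, HasDerivAt (fun t : ℂ => Φ (p.1, t)) (f (Φ p)) p.2
  max : ∀ (τ : ℂ) (γ : ℝ → E),
    (∀ s ∈ Icc (0 : ℝ) 1, γ s ∈ U ∧ HasDerivWithinAt γ (τ • f (γ s)) (Icc 0 1) s) →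
      (γ 0, τ) ∈ Ω ∧ Φ (γ 0, τ) = γ 1

/-- Cauchy estimates on a ball of a normed space. -/
def CauStmt : Prop := ∀ (E F : Type) [NormedAddCommGroup E] [NormedSpace ℂ E]
  [NormedAddCommGroup F] [NormedSpace ℂ F] (f : E → F) (c : E) (R M : ℝ), 0 < R →
  DifferentiableOn ℂ f (ball c R) → (∀ z ∈ ball c R, ‖f z‖ ≤ M) →
    ‖fderiv ℂ f c‖ ≤ 2 * M / R ∧
    (∀ z ∈ ball c R, ‖f z - f c‖ ≤ 2 * M / R * ‖z - c‖) ∧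
    (∀ z ∈ ball c R, ‖f z - f c - fderiv ℂ f c (z - c)‖ ≤ 4 * M / R ^ 2 * ‖z - c‖ ^ 2) ∧
    (∀ x ∈ ball c (R / 2), ∀ y ∈ ball c (R / 2), ‖f x - f y‖ ≤ 4 * M / R * ‖x - y‖) ∧
    (∀ x ∈ ball c (R / 4), ∀ y ∈ ball c (R / 4),
      ‖fderiv ℂ f x - fderiv ℂ f y‖ ≤ 32 * M / R ^ 2 * ‖x - y‖)

/-- Holomorphic maps on open sets of a normed space: uniform limits, continuity of the
derivative, directional derivatives. -/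
def HolStmt : Prop := ∀ (E F : Type) [NormedAddCommGroup E] [NormedSpace ℂ E]
  [NormedAddCommGroup F] [NormedSpace ℂ F] [CompleteSpace F] (U : Set E), IsOpen U →
    (∀ (G : ℕ → E → F) (g : E → F), (∀ n, DifferentiableOn ℂ (G n) U) →
      TendstoUniformlyOn G g atTop U → DifferentiableOn ℂ g U) ∧
    (∀ f : E → F, DifferentiableOn ℂ f U → ContinuousOn (fderiv ℂ f) U ∧
      ∀ v : E, DifferentiableOn ℂ (fun x => fderiv ℂ f x v) U)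

/-- Fixed points that depend holomorphically on a parameter. -/
def FixStmt : Prop := ∀ (P X : Type) [NormedAddCommGroup P] [NormedSpace ℂ P]
  [NormedAddCommGroup X] [NormedSpace ℂ X] [CompleteSpace X] (V : Set P) (T : P × X → X)
  (c : P → X) (R : ℝ), 0 < R → IsOpen V → DifferentiableOn ℂ T (V ×ˢ ball 0 (3 * R)) →
  (∀ p ∈ V, ‖c p‖ ≤ R) → (∀ p ∈ V, ∀ x ∈ ball (0 : X) (3 * R), ‖T (p, x) - c p‖ ≤ R / 8) →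
    ∃ ξ : P → X, DifferentiableOn ℂ ξ V ∧ ∀ p ∈ V, T (p, ξ p) = ξ p ∧ ‖ξ p - c p‖ ≤ R / 8 ∧
      ∀ x ∈ ball (0 : X) (2 * R), T (p, x) = x → x = ξ p

/-- Composition with a holomorphic map is holomorphic on spaces of curves. -/
def NemStmt : Prop := ∀ (K E F : Type) [TopologicalSpace K] [CompactSpace K]
  [NormedAddCommGroup E] [NormedSpace ℂ E] [NormedAddCommGroup F] [NormedSpace ℂ F]
  (f : E → F) (U : Set E), IsOpen U → DifferentiableOn ℂ f U →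
    IsOpen {γ : C(K, E) | ∀ s, γ s ∈ U} ∧ ∃ N : C(K, E) → C(K, F),
      DifferentiableOn ℂ N {γ : C(K, E) | ∀ s, γ s ∈ U} ∧
      ∀ γ : C(K, E), (∀ s, γ s ∈ U) → ∀ s, N γ s = f (γ s)

/-- Solutions on `[0,1]` near a given one depend holomorphically on the initial point. -/
def LocStmt : Prop := ∀ (E : Type) [NormedAddCommGroup E] [NormedSpace ℂ E] [NormedSpace ℝ E]
  [IsScalarTower ℝ ℂ E] [CompleteSpace E] (f : E → E) (U : Set E), IsOpen U →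
  DifferentiableOn ℂ f U → ∀ γ : ℝ → E,
    (∀ s ∈ Icc (0 : ℝ) 1, γ s ∈ U ∧ HasDerivWithinAt γ (f (γ s)) (Icc 0 1) s) →
    ∃ r > 0, ∃ Γ : E → ℝ → E, DifferentiableOn ℂ (fun x => Γ x 1) (ball (γ 0) r) ∧
      ∀ x ∈ ball (γ 0) r, Γ x 0 = x ∧
        ∀ s ∈ Icc (0 : ℝ) 1, Γ x s ∈ U ∧ HasDerivWithinAt (Γ x) (f (Γ x s)) (Icc 0 1) s

/-- Existence of the flow. -/
def FlowStmt : Prop := ∀ (E : Type) [NormedAddCommGroup E] [NormedSpace ℂ E] [NormedSpace ℝ E]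
  [IsScalarTower ℝ ℂ E] [CompleteSpace E] (f : E → E) (U : Set E), IsOpen U →
  DifferentiableOn ℂ f U → ∃ Ω Φ, IsFlow f U Ω Φ

/-- Group law, inverse, concatenation in real time, invariance of the field. -/
def GrpStmt : Prop := ∀ (E : Type) [NormedAddCommGroup E] [NormedSpace ℂ E] [NormedSpace ℝ E]
  [IsScalarTower ℝ ℂ E] (f : E → E) (U : Set E) (Ω : Set (E × ℂ)) (Φ : E × ℂ → E),
  IsFlow f U Ω Φ →
    (∀ (x : E) (τ σ : ℂ), (∀ s ∈ Icc (0 : ℝ) 1, (x, τ + (s : ℂ) * σ) ∈ Ω) →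
      (Φ (x, τ), σ) ∈ Ω ∧ Φ (Φ (x, τ), σ) = Φ (x, τ + σ)) ∧
    (∀ (x : E) (τ : ℂ), (x, τ) ∈ Ω → (Φ (x, τ), -τ) ∈ Ω ∧ Φ (Φ (x, τ), -τ) = x) ∧
    (∀ (x : E) (s t : ℝ), 0 ≤ s → 0 ≤ t → (x, (s : ℂ)) ∈ Ω → (Φ (x, (s : ℂ)), (t : ℂ)) ∈ Ω →
      (x, ((s + t : ℝ) : ℂ)) ∈ Ω) ∧
    (∀ p ∈ Ω, fderiv ℂ Φ p (f p.1, -1) = 0) ∧
    (∀ (a b : ℝ) (γ : ℝ → E), a ≤ b →
      (∀ s ∈ Icc a b, γ s ∈ U ∧ HasDerivWithinAt γ (f (γ s)) (Icc a b) s) →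
      ∀ s ∈ Icc a b, (γ a, ((s - a : ℝ) : ℂ)) ∈ Ω ∧ Φ (γ a, ((s - a : ℝ) : ℂ)) = γ s)

/-- Semiconjugacy of flows (symmetries, real structure, projections), and first integrals. -/
def SymStmt : Prop := ∀ (E E' : Type) [NormedAddCommGroup E] [NormedSpace ℂ E] [NormedSpace ℝ E]
  [IsScalarTower ℝ ℂ E] [NormedAddCommGroup E'] [NormedSpace ℂ E'] [NormedSpace ℝ E']
  [IsScalarTower ℝ ℂ E'] (f : E → E) (U : Set E) (Ω : Set (E × ℂ)) (Φ : E × ℂ → E),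
  IsFlow f U Ω Φ →
    (∀ (f' : E' → E') (U' : Set E') (Ω' : Set (E' × ℂ)) (Φ' : E' × ℂ → E'), IsFlow f' U' Ω' Φ' →
      ∀ (L : E → E') (x : E) (τ τ' : ℂ), (x, τ) ∈ Ω →
        (∀ s ∈ Icc (0 : ℝ) 1, L (Φ (x, (s : ℂ) * τ)) ∈ U' ∧ ∃ L' : E →L[ℝ] E',
          HasFDerivAt L L' (Φ (x, (s : ℂ) * τ)) ∧
          L' (τ • f (Φ (x, (s : ℂ) * τ))) = τ' • f' (L (Φ (x, (s : ℂ) * τ)))) →
        (L x, τ') ∈ Ω' ∧ Φ' (L x, τ') = L (Φ (x, τ))) ∧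
    (∀ (J : E → E') (x : E) (τ : ℂ), (x, τ) ∈ Ω →
      (∀ s ∈ Icc (0 : ℝ) 1, ∃ J' : E →L[ℂ] E', HasFDerivAt J J' (Φ (x, (s : ℂ) * τ)) ∧
        J' (f (Φ (x, (s : ℂ) * τ))) = 0) → J (Φ (x, τ)) = J x)

/-- Continuation under an a priori bound, plain and with a bootstrap. -/
def ExtStmt : Prop := ∀ (E : Type) [NormedAddCommGroup E] [NormedSpace ℂ E] [NormedSpace ℝ E]
  [IsScalarTower ℝ ℂ E] (f : E → E) (U : Set E) (Ω : Set (E × ℂ)) (Φ : E × ℂ → E),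
  IsFlow f U Ω Φ → ∀ (K : Set E), IsCompact K → K ⊆ U → ∀ x ∈ U, ∀ S : ℝ, 0 ≤ S →
    ((∀ s ∈ Icc 0 S, (x, (s : ℂ)) ∈ Ω → Φ (x, (s : ℂ)) ∈ K) → (x, (S : ℂ)) ∈ Ω) ∧
    (∀ g : ℝ × E → ℝ, Continuous g → (∀ s ∈ Icc 0 S, ∀ y, g (s, y) ≤ 1 → y ∈ K) → g (0, x) < 1 →
      (∀ s ∈ Icc 0 S, (x, (s : ℂ)) ∈ Ω → (∀ t ∈ Icc 0 s, g (t, Φ (x, (t : ℂ))) ≤ 1) →
        g (s, Φ (x, (s : ℂ))) < 1) →
      ∀ s ∈ Icc 0 S, (x, (s : ℂ)) ∈ Ω ∧ g (s, Φ (x, (s : ℂ))) < 1)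

/-- The field near a normally hyperbolic manifold of equilibria. -/
def hypF {X Z : Type} [NormedAddCommGroup X] (n : X × X × Z → X) (N : X × X × Z → Z)
    (p : X × X × Z) : X × X × Z := (p.1 + n p, -p.2.1 - n p, N p)

/-- Passage away from a normally hyperbolic manifold of equilibria. -/
def VolStmt : Prop := ∀ (X Z : Type) [NormedAddCommGroup X] [NormedSpace ℂ X] [NormedSpace ℝ X]
  [IsScalarTower ℝ ℂ X] [ProperSpace X] [NormedAddCommGroup Z] [NormedSpace ℂ Z] [NormedSpace ℝ Z]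
  [IsScalarTower ℝ ℂ Z] [ProperSpace Z] (n : X × X × Z → X) (N : X × X × Z → Z)
  (U : Set (X × X × Z)) (Ω : Set ((X × X × Z) × ℂ)) (Φ : (X × X × Z) × ℂ → X × X × Z),
  IsFlow (hypF n N) U Ω Φ → ∀ (c R d : ℝ) (ζ : Z), 0 < c → 0 < R → 8 * c * R ≤ 1 →
  8 * c * R ^ 2 ≤ d →
  (∀ p : X × X × Z, ‖p.1‖ ≤ 2 * R → ‖p.2.1‖ ≤ 2 * R → ‖p.2.2 - ζ‖ ≤ d → p ∈ U ∧
    ‖n p‖ ≤ c * max ‖p.1‖ ‖p.2.1‖ ^ 2 ∧ ‖N p‖ ≤ c * max ‖p.1‖ ‖p.2.1‖ ^ 2) →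
  ∀ (T : ℝ) (a b : X), 0 ≤ T → ‖a‖ ≤ R → ‖b‖ ≤ R → ∀ s ∈ Icc 0 T,
    ((Real.exp (-T) • a, Real.exp (-T) • b, ζ), (s : ℂ)) ∈ Ω ∧
    ‖(Φ ((Real.exp (-T) • a, Real.exp (-T) • b, ζ), (s : ℂ))).1 - Real.exp (s - T) • a‖ ≤
      4 * c * R ^ 2 * Real.exp (2 * (s - T)) ∧
    ‖(Φ ((Real.exp (-T) • a, Real.exp (-T) • b, ζ), (s : ℂ))).2.1 - Real.exp (-s - T) • b‖ ≤
      4 * c * R ^ 2 * Real.exp (2 * (s - T)) ∧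
    ‖(Φ ((Real.exp (-T) • a, Real.exp (-T) • b, ζ), (s : ℂ))).2.2 - ζ‖ ≤
      4 * c * R ^ 2 * Real.exp (2 * (s - T))

/-- A curve that follows a field up to a time factor and a small error, pulled back by the flow,
moves little. -/
def CmpStmt : Prop := ∀ (E : Type) [NormedAddCommGroup E] [NormedSpace ℂ E] [NormedSpace ℝ E]
  [IsScalarTower ℝ ℂ E] [ProperSpace E] (f : E → E) (U : Set E) (Ω : Set (E × ℂ))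
  (Φ : E × ℂ → E), IsFlow f U Ω Φ → ∀ K : Set E, IsCompact K → K ⊆ U →
    ∃ r > 0, ∃ C > 0, (∀ y ∈ cthickening r K, ∀ τ : ℂ, ‖τ‖ ≤ r → (y, τ) ∈ Ω ∧
      ‖Φ (y, τ) - y‖ ≤ C * ‖τ‖) ∧
    ∀ (a b : ℝ) (y e : ℝ → E) (σ g : ℝ → ℂ) (m m' : ℝ → ℝ), a ≤ b →
      (∀ s ∈ Icc a b, y s ∈ cthickening r K ∧ ‖σ s‖ ≤ r ∧ HasDerivAt σ (g s) s ∧
        HasDerivAt y (g s • f (y s) + e s) s ∧ HasDerivAt m (m' s) s ∧ ‖e s‖ ≤ m' s) →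
      ‖Φ (y b, -σ b) - Φ (y a, -σ a)‖ ≤ C * (m b - m a)

end Pool.Agent.MP_1ba41f_an.S2
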