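import Mathlib
import Pool.Agent.MP_1ba41f_an.S2.OD.Spec

/-! Group law of a holomorphic flow. -/

noncomputable section
open Set Metric Filter Topology

namespace Pool.Agent.MP_1ba41f_an.S2

namespace Grp

variable {E : Type} [NormedAddCommGroup E] [NormedSpace ℂ E] [NormedSpace ℝ E]
  [IsScalarTower ℝ ℂ E] {f : E → E} {U : Set E} {Ω : Set (E × ℂ)} {Φ : E × ℂ → E}

lemma rd (H : IsFlow f U Ω Φ) {x : E} {h : ℝ → ℂ} {h' : ℂ} {s : ℝ} (hm : (x, h s) ∈ Ω)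
    (hh : HasDerivAt h h' s) :
    HasDerivAt (fun r => Φ (x, h r)) (h' • f (Φ (x, h s))) s :=
  HasDerivAt.scomp s (H.der _ hm) hh

lemma one (H : IsFlow f U Ω Φ) (x : E) (τ σ : ℂ)
    (h : ∀ s ∈ Icc (0 : ℝ) 1, (x, τ + (s : ℂ) * σ) ∈ Ω) :
    (Φ (x, τ), σ) ∈ Ω ∧ Φ (Φ (x, τ), σ) = Φ (x, τ + σ) := by
  have := H.max σ (fun s => Φ (x, τ + (s : ℂ) * σ)) fun s hs => ⟨(H.mem _ (h s hs)).2, by
    have d : HasDerivAt (fun r : ℝ => τ + (r : ℂ) * σ) σ s := by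
      simpa using ((Complex.ofRealCLM.hasDerivAt (x := s)).mul_const σ).const_add τ
    exact (rd H (h := fun r : ℝ => τ + (r : ℂ) * σ) (h s hs) d).hasDerivWithinAt⟩
  simpa using this

lemma five (H : IsFlow f U Ω Φ) (a b : ℝ) (γ : ℝ → E)
    (h : ∀ s ∈ Icc a b, γ s ∈ U ∧ HasDerivWithinAt γ (f (γ s)) (Icc a b) s) (s : ℝ)
    (hs : s ∈ Icc a b) :
    (γ a, ((s - a : ℝ) : ℂ)) ∈ Ω ∧ Φ (γ a, ((s - a : ℝ) : ℂ)) = γ s := by
  have mp : MapsTo (fun r : ℝ => a + r * (s - a)) (Icc 0 1) (Icc a b) := fun r hr =>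
    ⟨by nlinarith [hr.1, hs.1], by nlinarith [hr.1, hr.2, hs.1, hs.2]⟩
  have := H.max ((s - a : ℝ) : ℂ) (fun r => γ (a + r * (s - a))) fun r hr =>
    ⟨(h _ (mp hr)).1, by
      have d : HasDerivWithinAt (fun r : ℝ => a + r * (s - a)) (s - a) (Icc 0 1) r := by
        simpa using (((hasDerivAt_id r).mul_const (s - a)).const_add a).hasDerivWithinAt
      have e := HasDerivWithinAt.scomp r (h _ (mp hr)).2 d mp
      rw [← Complex.coe_algebraMap, algebraMap_smul]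
      exact e⟩
  simpa using this

omit [IsScalarTower ℝ ℂ E] in
lemma seg (H : IsFlow f U Ω Φ) {x : E} {s r : ℝ} (hx : (x, (s : ℂ)) ∈ Ω) (hr : r ∈ Icc 0 s) :
    (x, (r : ℂ)) ∈ Ω := by
  rcases eq_or_lt_of_le (hr.1.trans hr.2) with h0 | h0
  · have : r = s := le_antisymm hr.2 (h0 ▸ hr.1)
    rwa [this]
  · have := H.star _ hx (r / s) ⟨div_nonneg hr.1 h0.le, (div_le_one h0).mpr hr.2⟩
    rwa [← Complex.ofReal_mul, div_mul_cancel₀ _ h0.ne'] at this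

lemma three (H : IsFlow f U Ω Φ) (x : E) (s t : ℝ) (hs : 0 ≤ s) (ht : 0 ≤ t)
    (h1 : (x, (s : ℂ)) ∈ Ω) (h2 : (Φ (x, (s : ℂ)), (t : ℂ)) ∈ Ω) :
    (x, ((s + t : ℝ) : ℂ)) ∈ Ω := by
  classical
  have xU := (H.mem _ h1).1
  have yU := (H.mem _ h1).2
  set γ : ℝ → E := fun r => if r ≤ s then Φ (x, (r : ℂ)) else Φ (Φ (x, (s : ℂ)), ((r - s : ℝ) : ℂ))
    with hγ
  have e1 : ∀ r ∈ Icc 0 s, γ r = Φ (x, (r : ℂ)) := fun r hr => if_pos hr.2
  have e2 : ∀ r ∈ Icc s (s + t), γ r = Φ (Φ (x, (s : ℂ)), ((r - s : ℝ) : ℂ)) := by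
    intro r hr
    by_cases h : r ≤ s
    · have : r = s := le_antisymm h hr.1
      rw [this, e1 s ⟨hs, le_rfl⟩, sub_self, Complex.ofReal_zero, (H.zero _ yU).2]
    · exact if_neg h
  have m2 : ∀ r ∈ Icc s (s + t), (Φ (x, (s : ℂ)), ((r - s : ℝ) : ℂ)) ∈ Ω := fun r hr =>
    seg H h2 ⟨by linarith [hr.1], by linarith [hr.2]⟩
  have d1 : ∀ r, HasDerivWithinAt γ (f (γ r)) (Icc 0 s) r := by
    intro r
    by_cases hr : r ∈ Icc 0 s
    · have d := rd H (h := fun r : ℝ => (r : ℂ)) (seg H h1 hr)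
        (Complex.ofRealCLM.hasDerivAt (x := r))
      rw [e1 r hr]
      refine HasDerivWithinAt.congr ?_ e1 (e1 r hr)
      simpa using d.hasDerivWithinAt
    · exact HasFDerivWithinAt.of_notMem_closure (by rwa [closure_Icc])
  have d2 : ∀ r, HasDerivWithinAt γ (f (γ r)) (Icc s (s + t)) r := by
    intro r
    by_cases hr : r ∈ Icc s (s + t)
    · have d0 : HasDerivAt (fun r : ℝ => ((r - s : ℝ) : ℂ)) 1 r := by
        simpa using (Complex.ofRealCLM.hasDerivAt (x := r)).sub_const (s : ℂ)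
      have d := rd H (h := fun r : ℝ => ((r - s : ℝ) : ℂ)) (m2 r hr) d0
      rw [e2 r hr]
      refine HasDerivWithinAt.congr ?_ e2 (e2 r hr)
      simpa using d.hasDerivWithinAt
    · exact HasFDerivWithinAt.of_notMem_closure (by rwa [closure_Icc])
  have := five H 0 (s + t) γ (fun r hr => ⟨?_, ?_⟩) (s + t) ⟨by linarith, le_rfl⟩
  · rw [e1 0 ⟨le_rfl, hs⟩, Complex.ofReal_zero, (H.zero _ xU).2, sub_zero] at this
    exact this.1
  · rcases le_total r s with h | h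
    · rw [e1 r ⟨hr.1, h⟩]; exact (H.mem _ (seg H h1 ⟨hr.1, h⟩)).2
    · rw [e2 r ⟨h, hr.2⟩]; exact (H.mem _ (m2 r ⟨h, hr.2⟩)).2
  · rw [← Icc_union_Icc_eq_Icc hs (by linarith : s ≤ s + t)]
    exact (d1 r).union (d2 r)

lemma four (H : IsFlow f U Ω Φ) (x : E) (τ : ℂ) (hp : (x, τ) ∈ Ω) :
    fderiv ℂ Φ (x, τ) (f x, -1) = 0 := by
  have xU := (H.mem _ hp).1
  have ev : ∀ᶠ t : ℂ in 𝓝 0, ∀ r ∈ Icc (0 : ℝ) 1, (x, t + (r : ℂ) * (τ - t)) ∈ Ω := by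
    refine isCompact_Icc.eventually_forall_of_forall_eventually
      (P := fun (t : ℂ) (r : ℝ) => (x, t + (r : ℂ) * (τ - t)) ∈ Ω) fun r hr => ?_
    have c : Continuous fun z : ℂ × ℝ => (x, z.1 + (z.2 : ℂ) * (τ - z.1)) := by fun_prop
    refine c.continuousAt.eventually_mem (H.op.mem_nhds ?_)
    simpa using H.star _ hp r hr
  have e : (fun t : ℂ => Φ (Φ (x, t), τ - t)) =ᶠ[𝓝 0] fun _ => Φ (x, τ) := by
    filter_upwards [ev] with t ht
    rw [(one H x t (τ - t) ht).2, add_sub_cancel]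
  have d0 : HasDerivAt (fun t : ℂ => (Φ (x, t), τ - t)) (f x, -1) 0 := by
    have a := H.der _ (H.zero x xU).1
    rw [(H.zero x xU).2] at a
    exact a.prodMk ((hasDerivAt_id (0 : ℂ)).const_sub τ)
  have d1 : HasFDerivAt Φ (fderiv ℂ Φ (x, τ)) (Φ (x, 0), τ - 0) := by
    rw [(H.zero x xU).2, sub_zero]
    exact ((H.hol _ hp).differentiableAt (H.op.mem_nhds hp)).hasFDerivAt
  have d2 := d1.comp_hasDerivAt (0 : ℂ) d0
  exact d2.unique ((hasDerivAt_const (0 : ℂ) (Φ (x, τ))).congr_of_eventuallyEq e)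

end Grp

theorem grpS : GrpStmt := by
  intro E _ _ _ _ f U Ω Φ H
  refine ⟨Grp.one H, fun x τ h => ?_, Grp.three H, fun p hp => Grp.four H p.1 p.2 hp,
    fun a b γ _ h => Grp.five H a b γ h⟩
  have := Grp.one H x τ (-τ) fun s hs => by
    have := H.star _ h (1 - s) ⟨by linarith [hs.2], by linarith [hs.1]⟩
    rwa [show τ + (s : ℂ) * -τ = ((1 - s : ℝ) : ℂ) * τ by push_cast; ring]
  rwa [add_neg_cancel, (H.zero x (H.mem _ h).1).2] at this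

end Pool.Agent.MP_1ba41f_an.S2
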