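import Pool.Agent.MP_1ba41f_an.S2.OD.Spec

/-! Holomorphic dependence on the initial point near a given solution. -/

noncomputable section
open Set Metric Filter Topology

namespace Pool.Agent.MP_1ba41f_an.S2

namespace Loc

variable {E : Type} [NormedAddCommGroup E] [NormedSpace ℂ E]

/-- The unit interval. -/
abbrev K : Type := ↥(Icc (0 : ℝ) 1)

/-- The projection to the unit interval. -/
def pj (t : ℝ) : K := projIcc 0 1 zero_le_one t

theorem pj_cont : Continuous pj := continuous_projIcc (h := zero_le_one)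

theorem pj_of {t : ℝ} (ht : t ∈ Icc (0 : ℝ) 1) : pj t = ⟨t, ht⟩ := projIcc_of_mem _ ht

theorem nrm (a : ℝ) (v : E) : ‖((Real.exp a : ℝ) : ℂ) • v‖ = Real.exp a * ‖v‖ := by
  rw [norm_smul, Complex.norm_real, Real.norm_of_nonneg (Real.exp_pos a).le]

/-- Multiplication by an exponential. -/
def W (a : ℝ) : C(K, E) →L[ℂ] C(K, E) :=
  LinearMap.mkContinuous
    { toFun := fun x => ⟨fun s => ((Real.exp (a * s) : ℝ) : ℂ) • x s, by fun_prop⟩
      map_add' := fun x y => by ext s; simp
      map_smul' := fun c x => by ext s; simp [smul_comm c] } (Real.exp |a|) fun x => by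
    refine (ContinuousMap.norm_le _ (by positivity)).2 fun s => ?_
    show ‖((Real.exp (a * s) : ℝ) : ℂ) • x s‖ ≤ _
    rw [nrm]
    refine mul_le_mul (Real.exp_le_exp.2 ?_) (x.norm_coe_le_norm s) (norm_nonneg _) (by positivity)
    have h1 := s.2.1
    have h2 := s.2.2
    nlinarith [le_abs_self a, abs_nonneg a]

theorem W_apply (a : ℝ) (x : C(K, E)) (s : K) : W a x s = ((Real.exp (a * s) : ℝ) : ℂ) • x s :=
  rfl

theorem W_inv (a : ℝ) (x : C(K, E)) : W a (W (-a) x) = x := by
  ext s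
  rw [W_apply, W_apply, smul_smul, ← Complex.ofReal_mul, ← Real.exp_add]
  simp

omit [NormedSpace ℂ E] in
theorem ii (g : C(K, E)) (a b : ℝ) :
    IntervalIntegrable (fun t => g (pj t)) MeasureTheory.volume a b :=
  (g.continuous.comp pj_cont).intervalIntegrable a b

variable [NormedSpace ℝ E] [IsScalarTower ℝ ℂ E]

/-- The primitive. -/
def P : C(K, E) →L[ℂ] C(K, E) :=
  LinearMap.mkContinuous
    { toFun := fun g => ⟨fun s => ∫ t in (0 : ℝ)..s, g (pj t),
        (intervalIntegral.continuous_primitive (ii g) 0).comp continuous_subtype_val⟩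
      map_add' := fun x y => by
        ext s
        exact intervalIntegral.integral_add (ii x _ _) (ii y _ _)
      map_smul' := fun c x => by
        ext s
        exact intervalIntegral.integral_smul c fun t => x (pj t) } 1 fun g => by
    refine (ContinuousMap.norm_le _ (by positivity)).2 fun s => ?_
    show ‖∫ t in (0 : ℝ)..s, g (pj t)‖ ≤ _
    refine (intervalIntegral.norm_integral_le_of_norm_le_const (C := ‖g‖)
      fun t _ => g.norm_coe_le_norm _).trans ?_
    rw [sub_zero, abs_of_nonneg s.2.1, mul_comm]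
    exact mul_le_mul_of_nonneg_right s.2.2 (norm_nonneg _)

theorem P_apply (g : C(K, E)) (s : K) : P g s = ∫ t in (0 : ℝ)..s, g (pj t) := rfl

theorem WP_le {L B : ℝ} (hL : 0 < L) (hB : 0 ≤ B) (g : C(K, E))
    (hg : ∀ s : K, ‖g s‖ ≤ B * Real.exp (L * s)) : ‖W (-L) (P g)‖ ≤ B / L := by
  refine (ContinuousMap.norm_le _ (by positivity)).2 fun s => ?_
  rw [W_apply, nrm, P_apply]
  have h1 : ‖∫ t in (0 : ℝ)..s, g (pj t)‖ ≤ ∫ t in (0 : ℝ)..s, B * Real.exp (L * t) := by
    refine intervalIntegral.norm_integral_le_of_norm_le s.2.1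
      (Eventually.of_forall fun t ht => ?_) (Continuous.intervalIntegrable (by fun_prop) _ _)
    have ht' : t ∈ Icc (0 : ℝ) 1 := ⟨ht.1.le, ht.2.trans s.2.2⟩
    rw [pj_of ht']
    exact hg ⟨t, ht'⟩
  have h2 : ∫ t in (0 : ℝ)..s, B * Real.exp (L * t) =
      B / L * Real.exp (L * s) - B / L * Real.exp (L * 0) := by
    refine intervalIntegral.integral_eq_sub_of_hasDerivAt
      (f := fun t => B / L * Real.exp (L * t)) (fun t _ => ?_)
      (Continuous.intervalIntegrable (by fun_prop) _ _)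
    have h3 := (((hasDerivAt_id t).const_mul L).exp).const_mul (B / L)
    refine h3.congr_deriv ?_
    simp only [id, mul_one]
    field_simp
  have h4 : Real.exp (-L * s) * Real.exp (L * s) = 1 := by
    rw [← Real.exp_add]
    simp
  have h5 : 0 ≤ B / L * Real.exp (L * 0) := by positivity
  calc _ ≤ Real.exp (-L * s) * (B / L * Real.exp (L * s)) :=
        mul_le_mul_of_nonneg_left (by linarith) (Real.exp_pos _).le
    _ = B / L := by rw [mul_left_comm, h4, mul_one]

end Loc

open Loc in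
theorem locS (hC : CauStmt) (hF : FixStmt) (hN : NemStmt) : LocStmt := by
  intro E _ _ _ _ _ f U hU hf γ hγ
  have hγc : ContinuousOn γ (Icc 0 1) := fun s hs => (hγ s hs).2.continuousWithinAt
  let g : C(K, E) := ⟨fun s => γ s, hγc.domRestrict⟩
  have hgU : ∀ s, g s ∈ U := fun s => (hγ s s.2).1
  obtain ⟨-, N, hNd, hNe⟩ := hN K E E f U hU hf
  obtain ⟨δ, hδ, hth⟩ := (isCompact_range g.continuous).exists_thickening_subset_open
    (hf.continuousOn.isOpen_inter_preimage hU (isOpen_ball (x := (0 : E)) (ε := ‖N g‖ + 1)))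
    (by
      rintro _ ⟨s, rfl⟩
      refine ⟨hgU s, ?_⟩
      rw [mem_preimage, mem_ball_zero_iff, ← hNe g hgU s]
      linarith [(N g).norm_coe_le_norm s])
  have hb : ∀ s, ∀ z ∈ ball (g s) δ, z ∈ U ∧ ‖f z‖ ≤ ‖N g‖ + 1 := fun s z hz => by
    have := hth (mem_thickening_iff.2 ⟨g s, mem_range_self s, hz⟩)
    exact ⟨this.1, (mem_ball_zero_iff.1 this.2).le⟩
  obtain ⟨l, hl, hlip⟩ : ∃ l : ℝ, 0 ≤ l ∧ ∀ s, ∀ x ∈ ball (g s) (δ / 2),
      ‖f x - f (g s)‖ ≤ l * ‖x - g s‖ :=
    ⟨4 * (‖N g‖ + 1) / δ, by positivity, fun s x hx =>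
      (hC E E f (g s) δ _ hδ (hf.mono fun z hz => (hb s z hz).1)
        fun z hz => (hb s z hz).2).2.2.2.1 x hx _ (mem_ball_self (by positivity))⟩
  obtain ⟨L, hL⟩ : ∃ L : ℝ, L = 24 * l + 1 := ⟨_, rfl⟩
  have hL0 : 0 < L := by linarith
  obtain ⟨R, hR⟩ : ∃ R : ℝ, R = δ / (6 * Real.exp L) := ⟨_, rfl⟩
  have hR0 : 0 < R := by rw [hR]; positivity
  have hin : ∀ x ∈ ball (0 : C(K, E)) (3 * R), ∀ s, (g + W L x) s ∈ ball (g s) (δ / 2) := by
    intro x hx s
    rw [mem_ball_iff_norm, ContinuousMap.add_apply, add_sub_cancel_left, W_apply, nrm]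
    have h1 := (x.norm_coe_le_norm s).trans_lt (mem_ball_zero_iff.1 hx)
    have h2 : Real.exp (L * s) ≤ Real.exp L :=
      Real.exp_le_exp.2 (by nlinarith [s.2.1, s.2.2])
    have h3 : Real.exp L * (3 * R) = δ / 2 := by rw [hR]; field_simp; norm_num
    calc _ ≤ Real.exp L * ‖x s‖ := mul_le_mul_of_nonneg_right h2 (norm_nonneg _)
      _ < _ := by rw [← h3]; exact mul_lt_mul_of_pos_left h1 (Real.exp_pos _)
  have hinU : ∀ x ∈ ball (0 : C(K, E)) (3 * R), ∀ s, (g + W L x) s ∈ U := fun x hx s =>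
    (hb s _ (ball_subset_ball (by linarith) (hin x hx s))).1
  let k : E →L[ℂ] C(K, E) := ContinuousLinearMap.const ℂ K
  have hk : ∀ v s, k v s = v := fun _ _ => rfl
  obtain ⟨ξ, hξd, hξ⟩ := hF E C(K, E) (ball (γ 0) R)
    (fun q => W (-L) (k (q.1 - γ 0)) + W (-L) (P (N (g + W L q.2) - N g)))
    (fun p => W (-L) (k (p - γ 0))) R hR0 isOpen_ball
    (by
      refine DifferentiableOn.add (Differentiable.differentiableOn (by fun_prop)) ?_
      have h1 : DifferentiableOn ℂ (fun q : E × C(K, E) => N (g + W L q.2))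
          (ball (γ 0) R ×ˢ ball 0 (3 * R)) :=
        hNd.comp (Differentiable.differentiableOn (by fun_prop)) fun q hq => hinU q.2 hq.2
      exact (W (E := E) (-L)).differentiable.comp_differentiableOn
        ((P (E := E)).differentiable.comp_differentiableOn (h1.sub_const (N g))))
    (by
      intro p hp
      refine (ContinuousMap.norm_le _ hR0.le).2 fun s => ?_
      rw [W_apply, nrm, hk]
      have h1 : Real.exp (-L * s) ≤ 1 := Real.exp_le_one_iff.2 (by nlinarith [s.2.1])
      have h2 := mem_ball_iff_norm.1 hp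
      nlinarith [norm_nonneg (p - γ 0), Real.exp_pos (-L * s)])
    (by
      intro p _ x hx
      rw [add_sub_cancel_left]
      refine (WP_le (B := l * (3 * R)) hL0 (by positivity) _ fun s => ?_).trans ?_
      · rw [ContinuousMap.sub_apply, hNe _ (hinU x hx), hNe g hgU]
        refine (hlip s _ (hin x hx s)).trans ?_
        rw [ContinuousMap.add_apply, add_sub_cancel_left, W_apply, nrm, mul_assoc]
        refine mul_le_mul_of_nonneg_left ?_ hl
        rw [mul_comm]
        exact mul_le_mul_of_nonneg_right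
          ((x.norm_coe_le_norm s).trans (mem_ball_zero_iff.1 hx).le) (Real.exp_pos _).le
      · rw [div_le_div_iff₀ hL0 (by norm_num), hL]
        nlinarith)
  have hξb : ∀ p ∈ ball (γ 0) R, ξ p ∈ ball (0 : C(K, E)) (3 * R) := by
    intro p hp
    have h1 := (hξ p hp).2.1
    have h2 : ‖W (-L) (k (p - γ 0))‖ ≤ R := by
      refine (ContinuousMap.norm_le _ hR0.le).2 fun s => ?_
      rw [W_apply, nrm, hk]
      have h1 : Real.exp (-L * s) ≤ 1 := Real.exp_le_one_iff.2 (by nlinarith [s.2.1])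
      have h2 := mem_ball_iff_norm.1 hp
      nlinarith [norm_nonneg (p - γ 0), Real.exp_pos (-L * s)]
    have h3 := norm_le_insert' (ξ p) (W (-L) (k (p - γ 0)))
    rw [mem_ball_zero_iff]
    linarith
  have hftc : ∀ s : K, P (N g) s = γ s - γ 0 := by
    intro s
    rw [P_apply]
    refine intervalIntegral.integral_eq_sub_of_hasDerivAt_of_le s.2.1
      (hγc.mono (Icc_subset_Icc_right s.2.2)) (fun t ht => ?_) (ii _ _ _)
    have ht' : t ∈ Icc (0 : ℝ) 1 := ⟨ht.1.le, ht.2.le.trans s.2.2⟩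
    rw [pj_of ht', hNe g hgU]
    exact (hγ t ht').2.hasDerivAt (Icc_mem_nhds ht.1 (ht.2.trans_le s.2.2))
  have key : ∀ p ∈ ball (γ 0) R, ∀ s : K,
      p + ∫ t in (0 : ℝ)..s, N (g + W L (ξ p)) (pj t) = (g + W L (ξ p)) s := by
    intro p hp s
    have h1 : W L (ξ p) = k (p - γ 0) + (P (N (g + W L (ξ p))) - P (N g)) := by
      have h2 := congrArg (W L) (hξ p hp).1
      rw [map_add, W_inv, W_inv, map_sub P] at h2
      exact h2.symm
    have h3 : W L (ξ p) s = p - γ 0 + (P (N (g + W L (ξ p))) s - (γ s - γ 0)) := by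
      rw [← hftc s]
      exact congrArg (fun y : C(K, E) => y s) h1
    rw [ContinuousMap.add_apply, h3, ← P_apply]
    show _ = γ s + _
    abel
  refine ⟨R, hR0, fun p s => p + ∫ t in (0 : ℝ)..s, N (g + W L (ξ p)) (pj t), ?_,
    fun p hp => ⟨by simp, fun s hs => ?_⟩⟩
  · refine DifferentiableOn.congr (f := fun p => (g + W L (ξ p)) ⟨1, by simp⟩) ?_
      fun p hp => key p hp ⟨1, by simp⟩
    exact (ContinuousMap.evalCLM ℂ (⟨1, by simp⟩ : K)).differentiable.comp_differentiableOn
      (((W L).differentiable.comp_differentiableOn hξd).const_add g)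
  · have h1 := key p hp ⟨s, hs⟩
    simp only at h1 ⊢
    rw [h1]
    refine ⟨hinU _ (hξb p hp) _, ?_⟩
    have h2 := (((N (g + W L (ξ p))).continuous.comp pj_cont).integral_hasStrictDerivAt 0
      s).hasDerivAt.const_add p
    rw [Function.comp_apply, pj_of hs, hNe _ (hinU _ (hξb p hp))] at h2
    exact h2.hasDerivWithinAt

end Pool.Agent.MP_1ba41f_an.S2
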