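import Pool.Agent.MP_1ba41f_an.S2.OD.Spec

/-! Composition with a holomorphic map is holomorphic on spaces of curves. -/

noncomputable section
open Set Metric Filter Topology Asymptotics

namespace Pool.Agent.MP_1ba41f_an.S2

namespace Nem

variable {K E F : Type} [TopologicalSpace K] [CompactSpace K] [NormedAddCommGroup E]
  [NormedAddCommGroup F]

theorem tube (γ : C(K, E)) {W : Set E} (hW : IsOpen W) (h : ∀ s, γ s ∈ W) :
    ∃ r > 0, ∀ s, ball (γ s) r ⊆ W := by
  obtain ⟨r, hr, e⟩ := (isCompact_range γ.continuous).exists_thickening_subset_open hW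
    (range_subset_iff.2 h)
  exact ⟨r, hr, fun s => (ball_subset_thickening (mem_range_self s) r).trans e⟩

variable [NormedSpace ℂ E] [NormedSpace ℂ F]

/-- pointwise application of a continuous family of linear maps -/
def app (D : C(K, E →L[ℂ] F)) : C(K, E) →L[ℂ] C(K, F) :=
  LinearMap.mkContinuous
    { toFun := fun h => ⟨fun s => D s (h s), D.continuous.clm_apply h.continuous⟩
      map_add' := fun a b => by ext s; simp
      map_smul' := fun c a => by ext s; simp } ‖D‖ fun h =>
    (ContinuousMap.norm_le _ (by positivity)).2 fun s => ((D s).le_opNorm _).trans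
      (mul_le_mul (D.norm_coe_le_norm s) (h.norm_coe_le_norm s) (norm_nonneg _) (by positivity))

theorem app_apply (D : C(K, E →L[ℂ] F)) (h : C(K, E)) (s : K) : app D h s = D s (h s) := rfl

end Nem

open Nem in
theorem nemS (hC : CauStmt) : NemStmt := by
  intro K E F _ _ _ _ _ _ f U hU hf
  have hN (γ : C(K, E)) (hγ : ∀ s, γ s ∈ U) (s : K) :
      ContinuousMap.mkD (f ∘ γ) 0 s = f (γ s) := by
    rw [ContinuousMap.mkD_of_continuous (hf.continuousOn.comp_continuous γ.continuous hγ)]
    rfl
  refine ⟨Metric.isOpen_iff.2 fun γ hγ => ?_, fun γ => ContinuousMap.mkD (f ∘ γ) 0,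
    fun γ hγ => DifferentiableAt.differentiableWithinAt ?_, hN⟩
  · obtain ⟨r, hr, e⟩ := tube γ hU hγ
    exact ⟨r, hr, fun η hη s => e s ((ContinuousMap.dist_apply_le_dist s).trans_lt hη)⟩
  set M := ‖ContinuousMap.mkD (f ∘ γ) 0‖ + 1 with hM
  have hM0 : 0 < M := by positivity
  obtain ⟨r, hr, e⟩ := tube γ (hf.continuousOn.isOpen_inter_preimage hU (isOpen_ball (x := 0)
    (ε := M))) fun s => ⟨hγ s, by
      rw [mem_preimage, mem_ball_zero_iff, ← hN γ hγ s]
      exact (ContinuousMap.norm_coe_le_norm _ s).trans_lt (lt_add_one _)⟩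
  have hc (s : K) := hC E F f (γ s) r M hr (hf.mono fun z hz => (e s hz).1)
    fun z hz => (mem_ball_zero_iff.1 (e s hz).2).le
  have hD : Continuous fun s => fderiv ℂ f (γ s) := by
    refine continuous_iff_continuousAt.2 fun s => ContinuousAt.comp (g := fderiv ℂ f) ?_
      γ.continuous.continuousAt
    refine (LipschitzOnWith.of_dist_le' (K := 32 * M / r ^ 2) (s := ball (γ s) (r / 4))
      fun x hx y hy => ?_).continuousOn.continuousAt (ball_mem_nhds _ (by positivity))
    rw [dist_eq_norm, dist_eq_norm]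
    exact (hc s).2.2.2.2 x hx y hy
  refine HasFDerivAt.differentiableAt (f' := app ⟨_, hD⟩) ?_
  refine hasFDerivAt_iff_isLittleO_nhds_zero.2 (IsBigO.trans_isLittleO
    (IsBigO.of_bound (4 * M / r ^ 2) ?_) (isLittleO_norm_pow_id one_lt_two))
  filter_upwards [ball_mem_nhds (0 : C(K, E)) hr] with h hh
  have h1 (s : K) : (γ + h) s ∈ ball (γ s) r := by
    rw [ContinuousMap.add_apply, mem_ball_iff_norm, add_sub_cancel_left]
    exact (h.norm_coe_le_norm s).trans_lt (mem_ball_zero_iff.1 hh)
  refine (ContinuousMap.norm_le _ (by positivity)).2 fun s => ?_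
  have h2 := (hc s).2.2.1 _ (h1 s)
  rw [ContinuousMap.sub_apply, ContinuousMap.sub_apply, hN _ (fun s => (e s (h1 s)).1), hN γ hγ,
    app_apply, norm_pow, norm_norm]
  rw [ContinuousMap.add_apply, add_sub_cancel_left] at h2
  refine h2.trans ?_
  gcongr
  exact h.norm_coe_le_norm s

end Pool.Agent.MP_1ba41f_an.S2
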