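import Pool.Agent.MP_1ba41f_an.S2.OD.Spec

/-! Passage away from a normally hyperbolic manifold of equilibria. -/

noncomputable section
open Set Metric Filter Topology

namespace Pool.Agent.MP_1ba41f_an.S2

namespace Vol

/-- Variation of constants for a scalar linear part. -/
lemma lin {Y : Type} [NormedAddCommGroup Y] [NormedSpace ℝ Y] (u w : ℝ → Y) (l M s : ℝ)
    (hl : l ≤ 1) (hM : 0 ≤ M) (hs : 0 ≤ s)
    (hu : ∀ t ∈ Icc 0 s, HasDerivAt u (l • u t + w t) t)
    (hw : ∀ t ∈ Icc 0 s, ‖w t‖ ≤ M * Real.exp (2 * t)) :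
    ‖u s - Real.exp (l * s) • u 0‖ ≤ M * Real.exp (2 * s) := by
  have hv : ∀ t ∈ Icc 0 s, HasDerivAt (fun t => Real.exp (-l * t) • u t - u 0)
      (Real.exp (-l * t) • w t) t := fun t ht => by
    have h1 : HasDerivAt (fun t => Real.exp (-l * t)) (Real.exp (-l * t) * -l) t := by
      simpa using ((hasDerivAt_id t).const_mul (-l)).exp
    refine ((h1.smul (hu t ht)).sub_const (u 0)).congr_deriv ?_
    rw [smul_add, smul_smul, add_right_comm, ← add_smul]
    simp
  have hB : ∀ t, HasDerivAt (fun t => M * Real.exp ((2 - l) * t))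
      (M * (Real.exp ((2 - l) * t) * (2 - l))) t := fun t => by
    have h1 : HasDerivAt (fun t => Real.exp ((2 - l) * t)) (Real.exp ((2 - l) * t) * (2 - l)) t := by
      simpa using ((hasDerivAt_id t).const_mul (2 - l)).exp
    exact h1.const_mul M
  have h := image_norm_le_of_norm_deriv_right_le_deriv_boundary
    (f := fun t => Real.exp (-l * t) • u t - u 0) (f' := fun t => Real.exp (-l * t) • w t)
    (a := 0) (b := s) (fun t ht => (hv t ht).continuousAt.continuousWithinAt)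
    (fun t ht => (hv t (Ico_subset_Icc_self ht)).hasDerivWithinAt)
    (B := fun t => M * Real.exp ((2 - l) * t)) (by simpa using hM) hB
    (fun t ht => by
      rw [norm_smul, Real.norm_of_nonneg (Real.exp_nonneg _)]
      have h1 := mul_le_mul_of_nonneg_left (hw t (Ico_subset_Icc_self ht))
        (Real.exp_nonneg (-l * t))
      have h2 : Real.exp (-l * t) * (M * Real.exp (2 * t)) = M * Real.exp ((2 - l) * t) := by
        rw [mul_left_comm, ← Real.exp_add]
        congr 2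
        ring
      have h3 : 0 ≤ M * Real.exp ((2 - l) * t) := by positivity
      nlinarith) (right_mem_Icc.2 hs)
  have h1 : u s - Real.exp (l * s) • u 0 =
      Real.exp (l * s) • (Real.exp (-l * s) • u s - u 0) := by
    rw [smul_sub, smul_smul, ← Real.exp_add]
    simp
  rw [h1, norm_smul, Real.norm_of_nonneg (Real.exp_nonneg _)]
  refine (mul_le_mul_of_nonneg_left h (Real.exp_nonneg _)).trans (le_of_eq ?_)
  rw [mul_left_comm, ← Real.exp_add]
  congr 2
  ring

/-- The flow along the real segment solves the equation in real time. -/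
lemma real_der {E : Type} [NormedAddCommGroup E] [NormedSpace ℂ E] [NormedSpace ℝ E]
    [IsScalarTower ℝ ℂ E] {f : E → E} {U : Set E} {Ω : Set (E × ℂ)} {Φ : E × ℂ → E}
    (h : IsFlow f U Ω Φ) {x : E} {s : ℝ} (hs : (x, (s : ℂ)) ∈ Ω) {t : ℝ} (ht : t ∈ Icc 0 s) :
    HasDerivAt (fun t : ℝ => Φ (x, (t : ℂ))) (f (Φ (x, (t : ℂ)))) t := by
  have hm : (x, (t : ℂ)) ∈ Ω := by
    rcases (ht.1.trans ht.2).eq_or_lt with h0 | h0
    · have : t = s := le_antisymm ht.2 (h0 ▸ ht.1)
      rwa [this]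
    · have h1 := h.star _ hs (t / s) ⟨div_nonneg ht.1 h0.le, (div_le_one h0).2 ht.2⟩
      have h2 : ((t / s : ℝ) : ℂ) * (s : ℂ) = t := by
        rw [← Complex.ofReal_mul, div_mul_cancel₀ _ h0.ne']
      simpa only [h2] using h1
  have h1 := HasDerivAt.scomp t (h.der _ hm) (Complex.ofRealCLM.hasDerivAt (x := t))
  rw [Complex.ofRealCLM_apply, Complex.ofReal_one, one_smul] at h1
  exact h1

lemma dfst {A B : Type} [NormedAddCommGroup A] [NormedSpace ℝ A] [NormedAddCommGroup B]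
    [NormedSpace ℝ B] {γ : ℝ → A × B} {v : A × B} {t : ℝ} (h : HasDerivAt γ v t) :
    HasDerivAt (fun t => (γ t).1) v.1 t :=
  (ContinuousLinearMap.fst ℝ A B).hasFDerivAt.comp_hasDerivAt t h

lemma dsnd {A B : Type} [NormedAddCommGroup A] [NormedSpace ℝ A] [NormedAddCommGroup B]
    [NormedSpace ℝ B] {γ : ℝ → A × B} {v : A × B} {t : ℝ} (h : HasDerivAt γ v t) :
    HasDerivAt (fun t => (γ t).2) v.2 t :=
  (ContinuousLinearMap.snd ℝ A B).hasFDerivAt.comp_hasDerivAt t h

variable {X Z : Type} [NormedAddCommGroup X] [NormedSpace ℝ X] [NormedAddCommGroup Z]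
  [NormedSpace ℝ Z]

/-- The three bounds under the bootstrap hypothesis. -/
lemma three (n : X × X × Z → X) (N : X × X × Z → Z) (γ : ℝ → X × X × Z) (M s : ℝ) (hM : 0 ≤ M)
    (hs : 0 ≤ s) (hγ : ∀ t ∈ Icc 0 s, HasDerivAt γ (hypF n N (γ t)) t)
    (hn : ∀ t ∈ Icc 0 s, ‖n (γ t)‖ ≤ M * Real.exp (2 * t) ∧ ‖N (γ t)‖ ≤ M * Real.exp (2 * t)) :
    ‖(γ s).1 - Real.exp s • (γ 0).1‖ ≤ M * Real.exp (2 * s) ∧
    ‖(γ s).2.1 - Real.exp (-s) • (γ 0).2.1‖ ≤ M * Real.exp (2 * s) ∧
    ‖(γ s).2.2 - (γ 0).2.2‖ ≤ M * Real.exp (2 * s) := by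
  refine ⟨?_, ?_, ?_⟩
  · have := lin (fun t => (γ t).1) (fun t => n (γ t)) 1 M s le_rfl hM hs
      (fun t ht => by simpa [hypF] using dfst (hγ t ht)) fun t ht => (hn t ht).1
    simpa using this
  · have := lin (fun t => (γ t).2.1) (fun t => -n (γ t)) (-1) M s (by norm_num) hM hs
      (fun t ht => by simpa [hypF, sub_eq_add_neg] using dfst (dsnd (hγ t ht)))
      fun t ht => by simpa using (hn t ht).1
    simpa using this
  · have := lin (fun t => (γ t).2.2) (fun t => N (γ t)) 0 M s (by norm_num) hM hs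
      (fun t ht => by simpa [hypF] using dsnd (dsnd (hγ t ht))) fun t ht => (hn t ht).2
    simpa using this

end Vol

theorem volS (hE : ExtStmt) : VolStmt := by
  intro X Z _ _ _ _ _ _ _ _ _ _ n N U Ω Φ hF c R d ζ hc hR hcR hd hU T a b hT ha hb
  have hd0 : 0 < d := lt_of_lt_of_le (by positivity) hd
  set x : X × X × Z := (Real.exp (-T) • a, Real.exp (-T) • b, ζ) with hx
  let g : ℝ × (X × X × Z) → ℝ := fun q => max (‖q.2.1‖ / (2 * R * Real.exp (q.1 - T)))
    (max (‖q.2.2.1‖ / (2 * R * Real.exp (q.1 - T))) (‖q.2.2.2 - ζ‖ / d))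
  have hg : Continuous g := by
    refine Continuous.max ?_ (Continuous.max ?_ (by fun_prop))
    · exact Continuous.div (by fun_prop) (by fun_prop) fun q => by positivity
    · exact Continuous.div (by fun_prop) (by fun_prop) fun q => by positivity
  have hle : ∀ t y, g (t, y) ≤ 1 → ‖y.1‖ ≤ 2 * R * Real.exp (t - T) ∧
      ‖y.2.1‖ ≤ 2 * R * Real.exp (t - T) ∧ ‖y.2.2 - ζ‖ ≤ d := fun t y h => by
    simp only [g, max_le_iff] at h
    exact ⟨(div_le_one (by positivity)).1 h.1, (div_le_one (by positivity)).1 h.2.1,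
      (div_le_one hd0).1 h.2.2⟩
  have hlt : ∀ t y, ‖y.1‖ < 2 * R * Real.exp (t - T) → ‖y.2.1‖ < 2 * R * Real.exp (t - T) →
      ‖y.2.2 - ζ‖ < d → g (t, y) < 1 := fun t y h1 h2 h3 => by
    simp only [g, max_lt_iff]
    exact ⟨(div_lt_one (by positivity)).2 h1, (div_lt_one (by positivity)).2 h2,
      (div_lt_one hd0).2 h3⟩
  have hexp : ∀ t, t ≤ T → 2 * R * Real.exp (t - T) ≤ 2 * R := fun t ht =>
    mul_le_of_le_one_right (by positivity) (Real.exp_le_one_iff.2 (by linarith))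
  let K : Set (X × X × Z) := closedBall 0 (2 * R) ×ˢ closedBall 0 (2 * R) ×ˢ closedBall ζ d
  have hK : IsCompact K :=
    (isCompact_closedBall _ _).prod ((isCompact_closedBall _ _).prod (isCompact_closedBall _ _))
  have hKU : K ⊆ U := fun p hp =>
    (hU p (mem_closedBall_zero_iff.1 hp.1) (mem_closedBall_zero_iff.1 hp.2.1)
      (mem_closedBall_iff_norm.1 hp.2.2)).1
  have hgK : ∀ s ∈ Icc 0 T, ∀ y, g (s, y) ≤ 1 → y ∈ K := fun s hs y h => by
    obtain ⟨h1, h2, h3⟩ := hle s y h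
    exact ⟨mem_closedBall_zero_iff.2 (h1.trans (hexp s hs.2)),
      mem_closedBall_zero_iff.2 (h2.trans (hexp s hs.2)), mem_closedBall_iff_norm.2 h3⟩
  have hsm : ∀ (r : ℝ) (v : X), ‖v‖ ≤ R → ‖Real.exp r • v‖ ≤ R * Real.exp r := fun r v hv => by
    rw [norm_smul, Real.norm_of_nonneg (Real.exp_nonneg _), mul_comm]
    exact mul_le_mul_of_nonneg_right hv (Real.exp_nonneg _)
  have hg0 : g (0, x) < 1 := by
    have h0 : R * Real.exp (-T) < 2 * R * Real.exp (0 - T) := by
      rw [zero_sub]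
      have : 0 < R * Real.exp (-T) := by positivity
      linarith
    exact hlt 0 x ((hsm _ a ha).trans_lt h0) ((hsm _ b hb).trans_lt h0) (by simpa [hx] using hd0)
  have hxU : x ∈ U := hKU (hgK 0 ⟨le_rfl, hT⟩ x hg0.le)
  have key : ∀ s ∈ Icc 0 T, (x, (s : ℂ)) ∈ Ω → (∀ t ∈ Icc 0 s, g (t, Φ (x, (t : ℂ))) ≤ 1) →
      ‖(Φ (x, (s : ℂ))).1 - Real.exp (s - T) • a‖ ≤ 4 * c * R ^ 2 * Real.exp (2 * (s - T)) ∧
      ‖(Φ (x, (s : ℂ))).2.1 - Real.exp (-s - T) • b‖ ≤ 4 * c * R ^ 2 * Real.exp (2 * (s - T)) ∧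
      ‖(Φ (x, (s : ℂ))).2.2 - ζ‖ ≤ 4 * c * R ^ 2 * Real.exp (2 * (s - T)) := by
    intro s hs hΩ hb1
    have hM : ∀ t : ℝ, 4 * c * R ^ 2 * Real.exp (-(2 * T)) * Real.exp (2 * t) =
        4 * c * R ^ 2 * Real.exp (2 * (t - T)) := fun t => by
      rw [mul_assoc, ← Real.exp_add]
      congr 2
      ring
    have h := Vol.three n N (fun t : ℝ => Φ (x, (t : ℂ))) (4 * c * R ^ 2 * Real.exp (-(2 * T))) s
      (by positivity) hs.1 (fun t ht => Vol.real_der hF hΩ ht) fun t ht => by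
        obtain ⟨h1, h2, h3⟩ := hle t _ (hb1 t ht)
        have h4 := hexp t (ht.2.trans hs.2)
        obtain ⟨-, h5, h6⟩ := hU _ (h1.trans h4) (h2.trans h4) h3
        have h7 : c * max ‖(Φ (x, (t : ℂ))).1‖ ‖(Φ (x, (t : ℂ))).2.1‖ ^ 2 ≤
            4 * c * R ^ 2 * Real.exp (2 * (t - T)) := by
          have h8 := pow_le_pow_left₀ (le_max_of_le_left (norm_nonneg _)) (max_le h1 h2) 2
          refine (mul_le_mul_of_nonneg_left h8 hc.le).trans (le_of_eq ?_)
          rw [two_mul (t - T), Real.exp_add]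
          ring
        rw [hM]
        exact ⟨h5.trans h7, h6.trans h7⟩
    have h0 : Φ (x, ((0 : ℝ) : ℂ)) = x := (hF.zero x hxU).2
    simp only [h0, hM] at h
    have e1 : Real.exp s • x.1 = Real.exp (s - T) • a := by
      simp only [hx, smul_smul, ← Real.exp_add, ← sub_eq_add_neg]
    have e2 : Real.exp (-s) • x.2.1 = Real.exp (-s - T) • b := by
      simp only [hx, smul_smul, ← Real.exp_add, ← sub_eq_add_neg]
    rw [e1, e2] at h
    exact h
  have hboot := (hE _ _ U Ω Φ hF K hK hKU x hxU T hT).2 g hg hgK hg0 fun s hs hΩ hb1 => by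
    obtain ⟨h1, h2, h3⟩ := key s hs hΩ hb1
    have he0 : 0 < Real.exp (s - T) := Real.exp_pos _
    have he1 : Real.exp (s - T) ≤ 1 := Real.exp_le_one_iff.2 (by linarith [hs.2])
    have he2 : Real.exp (2 * (s - T)) ≤ Real.exp (s - T) :=
      Real.exp_le_exp.2 (by linarith [hs.2])
    have he3 : Real.exp (-s - T) ≤ Real.exp (s - T) := Real.exp_le_exp.2 (by linarith [hs.1])
    have h4 : 4 * c * R ^ 2 ≤ R / 2 := by nlinarith
    have h5 : 4 * c * R ^ 2 * Real.exp (2 * (s - T)) ≤ R / 2 * Real.exp (s - T) :=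
      mul_le_mul h4 he2 (Real.exp_nonneg _) (by positivity)
    have h6 : 0 < R * Real.exp (s - T) := by positivity
    refine hlt s _ ?_ ?_ ?_
    · have := norm_sub_norm_le (Φ (x, (s : ℂ))).1 (Real.exp (s - T) • a)
      have := hsm (s - T) a ha
      linarith
    · have := norm_sub_norm_le (Φ (x, (s : ℂ))).2.1 (Real.exp (-s - T) • b)
      have := hsm (-s - T) b hb
      have := mul_le_mul_of_nonneg_left he3 hR.le
      linarith
    · have : 4 * c * R ^ 2 * Real.exp (2 * (s - T)) ≤ 4 * c * R ^ 2 :=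
        mul_le_of_le_one_right (by positivity) (he2.trans he1)
      linarith
  intro s hs
  exact ⟨(hboot s hs).1, key s hs (hboot s hs).1 fun t ht =>
    (hboot t ⟨ht.1, ht.2.trans hs.2⟩).2.le⟩

end Pool.Agent.MP_1ba41f_an.S2
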