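import Pool.Agent.MP_1ba41f_an.S2.OD.Cau
import Pool.Agent.MP_1ba41f_an.S2.OD.HolB
import Pool.Agent.MP_1ba41f_an.S2.OD.Fix
import Pool.Agent.MP_1ba41f_an.S2.OD.Nem
import Pool.Agent.MP_1ba41f_an.S2.OD.Loc
import Pool.Agent.MP_1ba41f_an.S2.OD.Flow
import Pool.Agent.MP_1ba41f_an.S2.OD.Grp
import Pool.Agent.MP_1ba41f_an.S2.OD.Sym
import Pool.Agent.MP_1ba41f_an.S2.OD.Ext
import Pool.Agent.MP_1ba41f_an.S2.OD.Vol

/-! Holomorphic flows: the statements without hypotheses. -/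

namespace Pool.Agent.MP_1ba41f_an.S2

theorem holT : HolStmt := holB cauS
theorem fixT : FixStmt := fixS cauS
theorem flowT : FlowStmt := flowS cauS holT (locS cauS fixT (nemS cauS))
theorem extT : ExtStmt := extS grpS
theorem volT : VolStmt := volS extT

end Pool.Agent.MP_1ba41f_an.S2
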