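import Pool.Agent.MP_1ba41f_an.S2.OD.Spec

/-! A curve that follows a field up to a time factor and a small error, pulled back by the flow,
moves little. -/

noncomputable section
open Set Metric Filter Topology

namespace Pool.Agent.MP_1ba41f_an.S2

namespace Cmp

/-- A compact tube around `K × {0}` inside an open set. -/
theorem tube {E : Type} [NormedAddCommGroup E] [ProperSpace E] (Ω : Set (E × ℂ)) (hΩ : IsOpen Ω)
    (K : Set E) (hK : IsCompact K) (h0 : ∀ x ∈ K, (x, (0 : ℂ)) ∈ Ω) :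
    ∃ r > 0, cthickening r K ×ˢ closedBall (0 : ℂ) r ⊆ Ω := by
  have hc : IsCompact (K ×ˢ ({0} : Set ℂ)) := hK.prod isCompact_singleton
  have hs : K ×ˢ ({0} : Set ℂ) ⊆ Ω := by
    rintro ⟨x, t⟩ ⟨hx, ht⟩
    have ht' : t = 0 := ht
    subst ht'
    exact h0 x hx
  obtain ⟨r, hr, hsub⟩ := hc.exists_cthickening_subset_open hΩ hs
  refine ⟨r, hr, ?_⟩
  rintro ⟨y, t⟩ ⟨hy, ht⟩
  have hy' : y ∈ cthickening r K := hy
  rw [hK.cthickening_eq_biUnion_closedBall hr.le] at hy'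
  obtain ⟨x, hx, hyx⟩ := mem_iUnion₂.1 hy'
  apply hsub
  have hm : (x, (0 : ℂ)) ∈ K ×ˢ ({0} : Set ℂ) := ⟨hx, rfl⟩
  apply closedBall_subset_cthickening hm r
  rw [← closedBall_prod_same]
  exact ⟨hyx, ht⟩

end Cmp

theorem cmpS (hH : HolStmt) (hG : GrpStmt) : CmpStmt := by
  intro E _ _ _ _ _ f U Ω Φ hF K hK hKU
  obtain ⟨r, hr, hsub⟩ := Cmp.tube Ω hF.op K hK (fun x hx => (hF.zero x (hKU hx)).1)
  have hL : IsCompact (cthickening r K ×ˢ closedBall (0 : ℂ) r) :=
    hK.cthickening.prod (isCompact_closedBall 0 r)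
  have hcont : ContinuousOn (fderiv ℂ Φ) Ω := ((hH (E × ℂ) E Ω hF.op).2 Φ hF.hol).1
  obtain ⟨C₀, hC₀⟩ := hL.exists_bound_of_continuousOn (hcont.mono hsub)
  have hC : ∀ p ∈ cthickening r K ×ˢ closedBall (0 : ℂ) r, ‖fderiv ℂ Φ p‖ ≤ |C₀| + 1 :=
    fun p hp => (hC₀ p hp).trans (by linarith [le_abs_self C₀])
  have hCpos : 0 < |C₀| + 1 := by positivity
  have hD : ∀ p ∈ Ω, HasFDerivAt Φ (fderiv ℂ Φ p) p := fun p hp =>
    ((hF.hol p hp).differentiableAt (hF.op.mem_nhds hp)).hasFDerivAt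
  refine ⟨r, hr, |C₀| + 1, hCpos, ?_, ?_⟩
  · intro y hy τ hτ
    have hτ' : τ ∈ closedBall (0 : ℂ) r := mem_closedBall_zero_iff.2 hτ
    have h0' : (0 : ℂ) ∈ closedBall (0 : ℂ) r := mem_closedBall_self hr.le
    refine ⟨hsub ⟨hy, hτ'⟩, ?_⟩
    have hyU : y ∈ U := (hF.mem (y, (0 : ℂ)) (hsub (mk_mem_prod hy h0'))).1
    have key := Convex.norm_image_sub_le_of_norm_hasFDerivWithin_le (𝕜 := ℂ)
      (f := fun t : ℂ => Φ (y, t)) (C := |C₀| + 1) (s := closedBall (0 : ℂ) r)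
      (f' := fun t => (fderiv ℂ Φ (y, t)).comp (ContinuousLinearMap.inr ℂ E ℂ))
      (fun t ht => ((hD (y, t) (hsub ⟨hy, ht⟩)).comp t (hasFDerivAt_prodMk_right y t)).hasFDerivWithinAt)
      (fun t ht => by
        refine ContinuousLinearMap.opNorm_le_bound _ hCpos.le (fun w => ?_)
        have h1 := (fderiv ℂ Φ (y, t)).le_of_opNorm_le (hC (y, t) ⟨hy, ht⟩) ((0 : E), w)
        simpa using h1)
      (convex_closedBall 0 r) h0' hτ'
    simpa [(hF.zero y hyU).2] using key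
  · intro a b y e σ g m m' hab h
    have hmem : ∀ s ∈ Icc a b, (y s, -σ s) ∈ cthickening r K ×ˢ closedBall (0 : ℂ) r :=
      fun s hs => ⟨(h s hs).1, by simpa using (h s hs).2.1⟩
    have hv : ∀ s ∈ Icc a b, HasDerivAt (fun s => Φ (y s, -σ s) - Φ (y a, -σ a))
        (fderiv ℂ Φ (y s, -σ s) (e s, 0)) s := by
      intro s hs
      obtain ⟨-, -, hσ, hy, -, -⟩ := h s hs
      have hp : HasDerivAt (fun s => (y s, -σ s)) (g s • f (y s) + e s, -g s) s := hy.prodMk hσ.neg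
      have hΩ := hsub (hmem s hs)
      have h1 := ((hD _ hΩ).restrictScalars ℝ).comp_hasDerivAt s hp
      have h2 := (hG E f U Ω Φ hF).2.2.2.1 _ hΩ
      have h3 : (g s • f (y s) + e s, -g s) = g s • (f (y s), (-1 : ℂ)) + (e s, 0) := by
        ext <;> simp
      have h4 : fderiv ℂ Φ (y s, -σ s) (g s • f (y s) + e s, -g s) =
          fderiv ℂ Φ (y s, -σ s) (e s, 0) := by
        rw [h3, map_add, map_smul, h2, smul_zero, zero_add]
      rw [← h4]
      exact h1.sub_const _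
    have hB : ∀ s ∈ Icc a b, HasDerivAt (fun s => (|C₀| + 1) * (m s - m a))
        ((|C₀| + 1) * m' s) s :=
      fun s hs => (((h s hs).2.2.2.2.1).sub_const _).const_mul _
    have key := image_norm_le_of_norm_deriv_right_le_deriv_boundary'
      (f := fun s => Φ (y s, -σ s) - Φ (y a, -σ a)) (a := a) (b := b)
      (f' := fun s => fderiv ℂ Φ (y s, -σ s) (e s, 0))
      (fun s hs => (hv s hs).continuousAt.continuousWithinAt)
      (fun s hs => (hv s (Ico_subset_Icc_self hs)).hasDerivWithinAt)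
      (B := fun s => (|C₀| + 1) * (m s - m a)) (B' := fun s => (|C₀| + 1) * m' s)
      (by simp)
      (fun s hs => (hB s hs).continuousAt.continuousWithinAt)
      (fun s hs => (hB s (Ico_subset_Icc_self hs)).hasDerivWithinAt)
      (fun s hs => by
        have hs' := Ico_subset_Icc_self hs
        have h1 := (fderiv ℂ Φ (y s, -σ s)).le_of_opNorm_le (hC _ (hmem s hs')) (e s, (0 : ℂ))
        have h2 : ‖(e s, (0 : ℂ))‖ = ‖e s‖ := by simp
        rw [h2] at h1
        exact h1.trans (mul_le_mul_of_nonneg_left (h s hs').2.2.2.2.2 hCpos.le))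
    exact key (right_mem_Icc.2 hab)

end Pool.Agent.MP_1ba41f_an.S2
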