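import Pool.Agent.MP_1ba41f_an.S2.OD.Spec

/-! Holomorphic maps on normed spaces: uniform limits and derivatives. -/

noncomputable section
open Set Metric Filter Topology

namespace Pool.Agent.MP_1ba41f_an.S2

namespace Hol

variable {E F : Type} [NormedAddCommGroup E] [NormedSpace ℂ E] [NormedAddCommGroup F]
  [NormedSpace ℂ F] {U : Set E}

theorem lim [CompleteSpace F] (hC : CauStmt) (hU : IsOpen U) {G : ℕ → E → F} {g : E → F}
    (hG : ∀ n, DifferentiableOn ℂ (G n) U) (h : TendstoUniformlyOn G g atTop U) :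
    DifferentiableOn ℂ g U := by
  intro c hc
  obtain ⟨R, hR, hb⟩ := Metric.isOpen_iff.1 hU c hc
  have h2 : 0 < R / 2 := half_pos hR
  have s1 : ball c (R / 2) ⊆ U := (ball_subset_ball (half_le_self hR.le)).trans hb
  have d : ∀ n, ∀ x ∈ ball c (R / 2), DifferentiableAt ℂ (G n) x := fun n x hx =>
    (hG n).differentiableAt (hU.mem_nhds (s1 hx))
  have u : UniformCauchySeqOn (fun n => fderiv ℂ (G n)) atTop (ball c (R / 2)) := by
    rw [Metric.uniformCauchySeqOn_iff]
    intro ε hε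
    obtain ⟨N, hN⟩ := Metric.uniformCauchySeqOn_iff.1 h.uniformCauchySeqOn (ε * R / 8)
      (by positivity)
    refine ⟨N, fun m hm n hn x hx => ?_⟩
    have s2 : ball x (R / 2) ⊆ U := (ball_half_subset x hx).trans hb
    have := (hC E F (G m - G n) x (R / 2) (ε * R / 8) h2 (((hG m).sub (hG n)).mono s2)
      fun z hz => (dist_eq_norm _ _).ge.trans (hN m hm n hn z (s2 hz)).le).1
    rw [fderiv_sub (d m x hx) (d n x hx)] at this
    rw [dist_eq_norm]
    refine this.trans_lt ?_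
    rw [div_lt_iff₀ h2]
    nlinarith [mul_pos hε hR]
  have l : ∀ x ∈ ball c (R / 2), Tendsto (fun n => fderiv ℂ (G n) x) atTop
      (𝓝 (limUnder atTop fun n => fderiv ℂ (G n) x)) := fun x hx =>
    (u.cauchySeq hx).tendsto_limUnder
  exact (hasFDerivAt_of_tendstoUniformlyOn isOpen_ball (u.tendstoUniformlyOn_of_tendsto l)
    (fun n x hx => (d n x hx).hasFDerivAt) (fun x hx => h.tendsto_at (s1 hx))
    (mem_ball_self h2)).differentiableAt.differentiableWithinAt

theorem loc (hU : IsOpen U) {f : E → F} (hf : DifferentiableOn ℂ f U) {c : E} (hc : c ∈ U) :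
    ∃ R M : ℝ, 0 < R ∧ ball c R ⊆ U ∧ ∀ z ∈ ball c R, ‖f z‖ ≤ M := by
  have h := (hf.differentiableAt (hU.mem_nhds hc)).continuousAt.norm.eventually
    (ge_mem_nhds (lt_add_one _))
  obtain ⟨R, hR, hb⟩ := Metric.eventually_nhds_iff_ball.1 (h.and (hU.mem_nhds hc))
  exact ⟨R, _, hR, fun z hz => (hb z hz).2, fun z hz => (hb z hz).1⟩

theorem cont (hC : CauStmt) (hU : IsOpen U) {f : E → F} (hf : DifferentiableOn ℂ f U) :
    ContinuousOn (fderiv ℂ f) U := by
  intro c hc
  obtain ⟨R, M, hR, hb, hM⟩ := loc hU hf hc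
  have h := (hC E F f c R M hR (hf.mono hb) hM).2.2.2.2
  have h4 : 0 < R / 4 := by positivity
  have L := LipschitzOnWith.of_dist_le' (f := fderiv ℂ f) (s := ball c (R / 4))
    (K := 32 * M / R ^ 2) fun x hx y hy => by
      rw [dist_eq_norm, dist_eq_norm]
      exact h x hx y hy
  exact (L.continuousOn.continuousAt (ball_mem_nhds c h4)).continuousWithinAt

theorem dir [CompleteSpace F] (hC : CauStmt) (hU : IsOpen U) {f : E → F}
    (hf : DifferentiableOn ℂ f U) (v : E) : DifferentiableOn ℂ (fun x => fderiv ℂ f x v) U := by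
  intro c hc
  obtain ⟨R, M, hR, hb, hM⟩ := loc hU hf hc
  have h2 : 0 < R / 2 := half_pos hR
  obtain ⟨t, -, ht, t0⟩ := exists_seq_strictAnti_tendsto'
    (show (0 : ℝ) < R / 2 / (‖v‖ + 1) by positivity)
  have nt : ∀ n, ‖(t n : ℂ) • v‖ = t n * ‖v‖ := fun n => by
    rw [norm_smul, Complex.norm_real, Real.norm_of_nonneg (ht n).1.le]
  have m : ∀ n x, x + (t n : ℂ) • v ∈ ball x (R / 2) := fun n x => by
    rw [mem_ball_iff_norm, add_sub_cancel_left, nt]
    have := (lt_div_iff₀ (by positivity)).1 (ht n).2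
    linarith [(ht n).1]
  have s2 : ∀ x ∈ ball c (R / 2), ball x (R / 2) ⊆ ball c R := fun x hx => ball_half_subset x hx
  refine ((lim hC isOpen_ball (G := fun n x => (t n : ℂ)⁻¹ • (f (x + (t n : ℂ) • v) - f x))
    (fun n => ?_) ?_).differentiableAt (ball_mem_nhds c h2)).differentiableWithinAt
  · refine ((hf.comp (differentiableOn_id.add_const _) fun x hx => hb (s2 x hx (m n x))).sub
      (hf.mono fun x hx => hb (s2 x hx (mem_ball_self h2)))).const_smul _
  · rw [Metric.tendstoUniformlyOn_iff]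
    intro ε hε
    have T := t0.const_mul (4 * M / (R / 2) ^ 2 * ‖v‖ ^ 2)
    rw [mul_zero] at T
    filter_upwards [T.eventually (gt_mem_nhds hε)] with n hn x hx
    have h := (hC E F f x (R / 2) M h2 (hf.mono ((s2 x hx).trans hb))
      fun z hz => hM z (s2 x hx hz)).2.2.1 _ (m n x)
    have tn : (t n : ℂ) ≠ 0 := Complex.ofReal_ne_zero.2 (ht n).1.ne'
    have e : (t n : ℂ)⁻¹ • (f (x + (t n : ℂ) • v) - f x) - fderiv ℂ f x v = (t n : ℂ)⁻¹ •
        (f (x + (t n : ℂ) • v) - f x - fderiv ℂ f x ((t n : ℂ) • v)) := by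
      rw [map_smul, smul_sub _ (_ - _), inv_smul_smul₀ tn]
    rw [add_sub_cancel_left, nt] at h
    rw [dist_comm, dist_eq_norm, e, norm_smul, norm_inv, Complex.norm_real,
      Real.norm_of_nonneg (ht n).1.le]
    refine lt_of_le_of_lt ?_ hn
    rw [inv_mul_le_iff₀ (ht n).1]
    exact h.trans (le_of_eq (by ring))

end Hol

theorem holS (hC : CauStmt) : HolStmt := fun _ _ _ _ _ _ _ _ hU =>
  ⟨fun _ _ hG h => Hol.lim hC hU hG h, fun _ hf => ⟨Hol.cont hC hU hf, Hol.dir hC hU hf⟩⟩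

end Pool.Agent.MP_1ba41f_an.S2
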